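import Pool.Agent.PSX.Core

set_option autoImplicit false

/-!
# Windows with a nonempty middle part
-/

namespace Pool.Agent.PSX

/-- the refined profile of a coarse profile -/
def up (x : ℤ → ℤ) (m : ℤ) : ℤ :=
  if m % 2 = 0 then 23 * x (m / 2) + 8 * x (m / 2 - 1) else 23 * x (m / 2) + 8 * x (m / 2 + 1)

theorem up_even (x : ℤ → ℤ) (j : ℤ) : up x (2 * j) = 23 * x j + 8 * x (j - 1) := by
  unfold up
  rw [if_pos (by omega)]
  have h : 2 * j / 2 = j := by omega
  rw [h]

theorem up_odd (x : ℤ → ℤ) (j : ℤ) : up x (2 * j + 1) = 23 * x j + 8 * x (j + 1) := by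
  unfold up
  rw [if_neg (by omega)]
  have h : (2 * j + 1) / 2 = j := by omega
  rw [h]

/-- one edge is left or the other is right -/
theorem left_or_right {x : ℤ → ℤ} {P Q : ℤ} (h0 : S x) (hP : S (fun m => x m + ind P m))
    (hQ : S (fun m => x m + ind Q m)) (hPQ : S (fun m => x m + ind P m + ind Q m))
    {j l : ℤ} (hjl : j < l)
    (h1 : x (j + 1) ≤ x j + ind P j + ind Q j) (h1' : 0 < x j + ind P j + ind Q j)
    (h2 : x l ≤ x (l + 1) + ind P (l + 1) + ind Q (l + 1))
    (h2' : 0 < x (l + 1) + ind P (l + 1) + ind Q (l + 1)) : False := by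
  have key : ∀ R : ℤ, (R = j ∨ R = l + 1) → ind R (j + 1) = 0 ∧ ind R l = 0 := by
    intro R hR
    constructor
    · exact ind_ne (by omega)
    · exact ind_ne (by omega)
  have key2 : ∀ R : ℤ, ¬ (R = j ∨ R = l + 1) → ind R j = 0 ∧ ind R (l + 1) = 0 := by
    intro R hR
    constructor
    · exact ind_ne (by omega)
    · exact ind_ne (by omega)
  by_cases c1 : P = j ∨ P = l + 1
  · obtain ⟨a1, a2⟩ := key P c1
    by_cases c2 : Q = j ∨ Q = l + 1
    · obtain ⟨b1, b2⟩ := key Q c2
      refine hPQ j l hjl ?_ ?_ ?_ ?_ <;> simp only [] <;> omega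
    · obtain ⟨b1, b2⟩ := key2 Q c2
      refine hP j l hjl ?_ ?_ ?_ ?_ <;> simp only [] <;> omega
  · obtain ⟨a1, a2⟩ := key2 P c1
    by_cases c2 : Q = j ∨ Q = l + 1
    · obtain ⟨b1, b2⟩ := key Q c2
      refine hQ j l hjl ?_ ?_ ?_ ?_ <;> simp only [] <;> omega
    · obtain ⟨b1, b2⟩ := key2 Q c2
      refine h0 j l hjl ?_ ?_ ?_ ?_ <;> omega

/-- an edge which is left -/
def Lf (x : ℤ → ℤ) (P Q j : ℤ) : Prop :=
  x j + ind P j + ind Q j < x (j + 1) ∨ (x j + ind P j + ind Q j = 0 ∧ x (j + 1) = 0)

/-- an edge which is right -/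
def Rt (x : ℤ → ℤ) (P Q j : ℤ) : Prop :=
  x (j + 1) + ind P (j + 1) + ind Q (j + 1) < x j ∨
    (x (j + 1) + ind P (j + 1) + ind Q (j + 1) = 0 ∧ x j = 0)

theorem ind_nonneg (P j : ℤ) : 0 ≤ ind P j := by
  unfold ind
  split_ifs <;> omega

theorem lf_or_rt {x : ℤ → ℤ} {P Q : ℤ} (hx : ∀ j, 0 ≤ x j) (h0 : S x)
    (hP : S (fun m => x m + ind P m))
    (hQ : S (fun m => x m + ind Q m)) (hPQ : S (fun m => x m + ind P m + ind Q m))
    {j l : ℤ} (hjl : j < l) : Lf x P Q j ∨ Rt x P Q l := by
  by_contra hno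
  push Not at hno
  obtain ⟨h1, h2⟩ := hno
  unfold Lf at h1
  unfold Rt at h2
  have g1 := hx j
  have g2 := hx (j + 1)
  have g3 := hx l
  have g4 := hx (l + 1)
  have i1 := ind_nonneg P j
  have i2 := ind_nonneg Q j
  have i3 := ind_nonneg P (l + 1)
  have i4 := ind_nonneg Q (l + 1)
  exact left_or_right h0 hP hQ hPQ hjl (by omega) (by omega) (by omega) (by omega)

/-- the positivity of the two sites of the undetermined edge -/
theorem pos_of {x : ℤ → ℤ} {P Q : ℤ} (hx : ∀ j, 0 ≤ x j)
    (hP : S (fun m => x m + ind P m)) (hQ : S (fun m => x m + ind Q m))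
    (aP : 0 < x (P - 1) ∨ 0 < x P ∨ 0 < x (P + 1)) (aQ : 0 < x (Q - 1) ∨ 0 < x Q ∨ 0 < x (Q + 1))
    {j : ℤ} (h1 : ¬ Lf x P Q j) (h2 : ¬ Rt x P Q j) : 0 < x j ∨ 0 < x (j + 1) := by
  by_contra hno
  push Not at hno
  obtain ⟨z0, z1⟩ := hno
  have z0' : x j = 0 := le_antisymm z0 (hx j)
  have z1' : x (j + 1) = 0 := le_antisymm z1 (hx (j + 1))
  unfold Lf at h1
  unfold Rt at h2
  have i1 := ind_nonneg P j
  have i2 := ind_nonneg Q j
  have i3 := ind_nonneg P (j + 1)
  have i4 := ind_nonneg Q (j + 1)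
  have w1 : P = j ∨ Q = j := by
    by_contra hc
    push Not at hc
    have := ind_ne (P := P) (j := j) (fun h => hc.1 h.symm)
    have := ind_ne (P := Q) (j := j) (fun h => hc.2 h.symm)
    omega
  have w2 : P = j + 1 ∨ Q = j + 1 := by
    by_contra hc
    push Not at hc
    have := ind_ne (P := P) (j := j + 1) (fun h => hc.1 h.symm)
    have := ind_ne (P := Q) (j := j + 1) (fun h => hc.2 h.symm)
    omega
  have key : ∀ P Q : ℤ, P = j → Q = j + 1 → (0 < x (P - 1) ∨ 0 < x P ∨ 0 < x (P + 1)) →
      S (fun m => x m + ind Q m) → False := by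
    intro P Q c1 c2 a hS
    subst c1 c2
    have hz : x (P - 1) = x (P - 1) := rfl
    rcases a with a | a | a
    · have u1 : P - 1 + 1 = P := by ring
      refine hS (P - 1) P (by omega) ?_ ?_ ?_ ?_
      · have := ind_nonneg (P + 1) (P - 1)
        simp only []
        omega
      · have v1 := ind_nonneg (P + 1) (P - 1)
        have v2 : ind (P + 1) P = 0 := ind_ne (by omega)
        simp only []
        rw [u1]
        omega
      · have v2 : ind (P + 1) P = 0 := ind_ne (by omega)
        have v3 := ind_nonneg (P + 1) (P + 1)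
        have v4 := hx (P + 1)
        simp only []
        omega
      · have v3 : ind (P + 1) (P + 1) = 1 := ind_self _
        have v4 := hx (P + 1)
        simp only []
        omega
    · omega
    · omega
  rcases w1 with w1 | w1
  · rcases w2 with w2 | w2
    · omega
    · exact key P Q w1 w2 aP hQ
  · rcases w2 with w2 | w2
    · exact key Q P w1 w2 aQ hP
    · omega

/-- Windows with a nonempty middle part. -/
theorem closure {x : ℤ → ℤ} {P Q v0 v1 v2 v3 w0 w1 w2 w3 : ℤ} (hx : ∀ j, 0 ≤ x j)
    (gv : Gd v0 v1 v2 v3) (gw : Gd w0 w1 w2 w3) (h0 : S x)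
    (hP : S (fun m => x m + ind P m)) (hQ : S (fun m => x m + ind Q m))
    (hPQ : S (fun m => x m + ind P m + ind Q m))
    (aP : 0 < x (P - 1) ∨ 0 < x P ∨ 0 < x (P + 1)) (aQ : 0 < x (Q - 1) ∨ 0 < x Q ∨ 0 < x (Q + 1))
    (hN : P = Q → ¬ (x P = 0 ∧ x (P + 1) = 1 ∧ x (P + 2) = 0))
    (hN' : P = Q → ¬ (x P = 0 ∧ x (P - 1) = 1 ∧ x (P - 2) = 0)) :
    S (fun m => up x m + at4 v0 v1 v2 v3 (m - 2 * P + 1) + at4 w0 w1 w2 w3 (m - 2 * Q + 1)) := by
  set F : ℤ → ℤ := fun m => up x m + at4 v0 v1 v2 v3 (m - 2 * P + 1) +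
    at4 w0 w1 w2 w3 (m - 2 * Q + 1) with hF
  have LR : ∀ j l, j < l → Lf x P Q j ∨ Rt x P Q l := fun j l h => lf_or_rt hx h0 hP hQ hPQ h
  have ctv := ct_of gv P
  have ctw := ct_of gw Q
  -- values
  have F0 : ∀ j, F (2 * j) = 23 * x j + 8 * x (j - 1) + at4 v0 v1 v2 v3 (2 * j - 2 * P + 1) +
      at4 w0 w1 w2 w3 (2 * j - 2 * Q + 1) := by
    intro j
    simp only [hF]
    rw [up_even]
  have F1 : ∀ j, F (2 * j + 1) = 23 * x j + 8 * x (j + 1) +
      at4 v0 v1 v2 v3 (2 * j + 1 - 2 * P + 1) + at4 w0 w1 w2 w3 (2 * j + 1 - 2 * Q + 1) := by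
    intro j
    simp only [hF]
    rw [up_odd]
  have F2 : ∀ j, F (2 * j + 1 + 1) = 23 * x (j + 1) + 8 * x j +
      at4 v0 v1 v2 v3 (2 * j + 2 - 2 * P + 1) + at4 w0 w1 w2 w3 (2 * j + 2 - 2 * Q + 1) := by
    intro j
    have e1 : 2 * j + 1 + 1 = 2 * (j + 1) := by ring
    have e2 : 2 * (j + 1) = 2 * j + 2 := by ring
    have e3 : j + 1 - 1 = j := by ring
    rw [e1, F0, e2, e3]
  have F3 : ∀ j, F (2 * j + 2 + 1) = 23 * x (j + 1) + 8 * x (j + 2) +
      at4 v0 v1 v2 v3 (2 * j + 3 - 2 * P + 1) + at4 w0 w1 w2 w3 (2 * j + 3 - 2 * Q + 1) := by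
    intro j
    have e1 : 2 * j + 2 + 1 = 2 * (j + 1) + 1 := by ring
    have e2 : 2 * (j + 1) + 1 = 2 * j + 3 := by ring
    have e3 : j + 1 + 1 = j + 2 := by ring
    rw [e1, F1, e2, e3]
  have F2' : ∀ j, F (2 * j + 2) = F (2 * j + 1 + 1) := fun j => by
    have e : 2 * j + 2 = 2 * j + 1 + 1 := by ring
    rw [e]
  -- even-odd edges (2j+1, 2j+2)
  have L1 : ∀ j, Lf x P Q j → 0 < F (2 * j + 1) → F (2 * j + 1 + 1) ≤ F (2 * j + 1) → False := by
    intro j hL hp hD
    rw [F1] at hp hD
    rw [F2] at hD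
    have a := ctv j
    have b := ctw j
    have a1 := a.e3
    have b1 := b.e3
    have a2 := a.e7
    have b2 := b.e7
    have a3 := ind_nonneg P j
    have b3 := ind_nonneg Q j
    have x0 := hx j
    have x1 := hx (j + 1)
    rcases hL with hL | hL
    · omega
    · have := a2 (by omega)
      have := b2 (by omega)
      omega
  have R1 : ∀ j, Rt x P Q j → 0 < F (2 * j + 1 + 1) → F (2 * j + 1) ≤ F (2 * j + 1 + 1) →
      False := by
    intro j hL hp hD
    rw [F1] at hD
    rw [F2] at hp hD
    have a := ctv j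
    have b := ctw j
    have a1 := a.e4
    have b1 := b.e4
    have a2 := a.e7'
    have b2 := b.e7'
    have a3 := ind_nonneg P (j + 1)
    have b3 := ind_nonneg Q (j + 1)
    have x0 := hx j
    have x1 := hx (j + 1)
    rcases hL with hL | hL
    · omega
    · have := a2 (by omega)
      have := b2 (by omega)
      omega
  have L2 : ∀ j, Lf x P Q (j - 1) → Lf x P Q j → 0 < F (2 * j) → F (2 * j + 1) ≤ F (2 * j) →
      False := by
    intro j hL hL' hp hD
    rw [F0] at hp hD
    rw [F1] at hD
    have a := ctv j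
    have b := ctw j
    have a1 := a.e1
    have b1 := b.e1
    have a2 := a.e8
    have b2 := b.e8
    have a3 := ind_nonneg P j
    have b3 := ind_nonneg Q j
    have a4 := ind_nonneg P (j - 1)
    have b4 := ind_nonneg Q (j - 1)
    have x0 := hx j
    have x1 := hx (j + 1)
    have x2 := hx (j - 1)
    have e : j - 1 + 1 = j := by ring
    unfold Lf at hL hL'
    rw [e] at hL
    rcases hL with hL | hL
    · omega
    · rcases hL' with hL' | hL'
      · omega
      · have := a2 (by omega) (by omega)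
        have := b2 (by omega) (by omega)
        omega
  have R2 : ∀ j, Rt x P Q (j - 1) → Rt x P Q j → 0 < F (2 * j + 1) → F (2 * j) ≤ F (2 * j + 1) →
      False := by
    intro j hL hL' hp hD
    rw [F0] at hD
    rw [F1] at hp hD
    have a := ctv j
    have b := ctw j
    have a1 := a.e1'
    have b1 := b.e1'
    have c1 := ctv (j - 1)
    have d1 := ctw (j - 1)
    have e : j - 1 + 1 = j := by ring
    have e' : j - 1 + 2 = j + 1 := by ring
    have e2 : 2 * (j - 1) + 3 = 2 * j + 1 := by ring
    rw [e, e', e2] at c1 d1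
    have a2 := c1.e8'
    have b2 := d1.e8'
    have a3 := ind_nonneg P j
    have b3 := ind_nonneg Q j
    have a4 := ind_nonneg P (j + 1)
    have b4 := ind_nonneg Q (j + 1)
    have x0 := hx j
    have x1 := hx (j + 1)
    have x2 := hx (j - 1)
    unfold Rt at hL hL'
    rw [e] at hL
    rcases hL' with hL' | hL'
    · omega
    · rcases hL with hL | hL
      · omega
      · have := a2 (by omega) (by omega)
        have := b2 (by omega) (by omega)
        omega
  -- the undetermined edge
  have X : ∀ j, ¬ Lf x P Q j → ¬ Rt x P Q j →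
      (F (2 * j + 1 + 1) ≤ F (2 * j + 1) → F (2 * j + 1 + 1) ≤ F (2 * j + 2 + 1) → False) ∧
      (F (2 * j + 1) ≤ F (2 * j) → F (2 * j + 1) ≤ F (2 * j + 1 + 1) → False) ∧
      (F (2 * j + 1) ≤ F (2 * j) → F (2 * j + 1 + 1) ≤ F (2 * j + 2 + 1) → False) := by
    intro j h1 h2
    have hp := pos_of hx hP hQ aP aQ h1 h2
    have hl : Lf x P Q (j - 1) := by
      rcases LR (j - 1) j (by omega) with h | h
      · exact h
      · exact absurd h h2
    have hr : Rt x P Q (j + 1) := by
      rcases LR j (j + 1) (by omega) with h | h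
      · exact absurd h h1
      · exact h
    unfold Lf at h1 hl
    unfold Rt at h2 hr
    have e : j - 1 + 1 = j := by ring
    have e' : j + 1 + 1 = j + 2 := by ring
    rw [e] at hl
    rw [e'] at hr
    have x0 := hx j
    have x1 := hx (j + 1)
    have x2 := hx (j - 1)
    have x3 := hx (j + 2)
    have a := ctv j
    have b := ctw j
    have i1 := a.m0
    have i2 := a.z0
    have i3 := a.o0
    have i4 := a.p0
    have i5 := b.m0
    have i6 := b.z0
    have i7 := b.o0
    have i8 := b.p0
    have i9 := a.sm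
    have i10 := b.sm
    rw [F0, F1, F2, F3]
    by_cases hdir : x j < x (j + 1) ∨ (x j = x (j + 1) ∧ ind P (j + 1) + ind Q (j + 1) ≤ 1)
    · have hN1 : ¬ (ind P j = 1 ∧ ind Q j = 1 ∧ x j = 0 ∧ x (j + 1) = 1 ∧ x (j + 2) = 0) := by
        rintro ⟨g1, g2, g3, g4, g5⟩
        have hPj : P = j := by
          by_contra hc
          have := ind_ne (P := P) (j := j) (fun h => hc h.symm)
          omega
        have hQj : Q = j := by
          by_contra hc
          have := ind_ne (P := Q) (j := j) (fun h => hc h.symm)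
          omega
        subst hPj
        exact hN hQj.symm ⟨g3, g4, g5⟩
      have := core_pos a b x2 x0 x3 hp (by omega) (by omega) (by omega) (by omega) (by omega) hN1
      refine ⟨fun u v => ?_, fun u v => ?_, fun u v => ?_⟩ <;> omega
    · have hN1 : ¬ (ind P (j + 1) = 1 ∧ ind Q (j + 1) = 1 ∧ x (j + 1) = 0 ∧ x j = 1 ∧
          x (j - 1) = 0) := by
        rintro ⟨g1, g2, g3, g4, g5⟩
        have hPj : P = j + 1 := by
          by_contra hc
          have := ind_ne (P := P) (j := j + 1) (fun h => hc h.symm)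
          omega
        have hQj : Q = j + 1 := by
          by_contra hc
          have := ind_ne (P := Q) (j := j + 1) (fun h => hc h.symm)
          omega
        subst hPj
        have u1 : j + 1 - 1 = j := by ring
        have u2 : j + 1 - 2 = j - 1 := by ring
        apply hN' hQj.symm
        rw [u1, u2]
        exact ⟨g3, g4, g5⟩
      have := core_pos a.mirror b.mirror x3 x1 x2 hp.symm (by omega) (by omega) (by omega)
        (by omega) (by omega) hN1
      refine ⟨fun u v => ?_, fun u v => ?_, fun u v => ?_⟩ <;> omega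
  -- assembly
  intro i l hil hi1 hi2 hl1 hl2
  obtain ⟨j, hj⟩ : ∃ j, i = 2 * j ∨ i = 2 * j + 1 := ⟨i / 2, by omega⟩
  obtain ⟨k, hk⟩ : ∃ k, l = 2 * k ∨ l = 2 * k + 1 := ⟨l / 2, by omega⟩
  rcases hj with hj | hj <;> rcases hk with hk | hk
  · subst hj hk
    have n1 : ¬ Lf x P Q (j - 1) ∨ ¬ Lf x P Q j := by
      by_contra hc
      push Not at hc
      exact L2 j hc.1 hc.2 hi1 hi2
    have n2 : ¬ Rt x P Q (k - 1) ∨ ¬ Rt x P Q k := by
      by_contra hc
      push Not at hc
      exact R2 k hc.1 hc.2 hl2 hl1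
    have hjk : j < k := by omega
    by_cases hk1 : k = j + 1
    · subst hk1
      have u1 : j + 1 - 1 = j := by ring
      rw [u1] at n2
      have nL : ¬ Lf x P Q j := by
        rcases n1 with n1 | n1
        · exfalso
          rcases n2 with n2 | n2
          · rcases LR (j - 1) j (by omega) with h | h
            · exact n1 h
            · exact n2 h
          · rcases LR (j - 1) (j + 1) (by omega) with h | h
            · exact n1 h
            · exact n2 h
        · exact n1
      have nR : ¬ Rt x P Q j := by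
        rcases n2 with n2 | n2
        · exact n2
        · exfalso
          rcases LR j (j + 1) (by omega) with h | h
          · exact nL h
          · exact n2 h
      have e1 : 2 * (j + 1) = 2 * j + 2 := by ring
      rw [e1] at hl1
      rw [F2' j] at hl1
      exact (X j nL nR).2.2 hi2 hl1
    · rcases n1 with n1 | n1
      · rcases n2 with n2 | n2
        · rcases LR (j - 1) (k - 1) (by omega) with h | h
          · exact n1 h
          · exact n2 h
        · rcases LR (j - 1) k (by omega) with h | h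
          · exact n1 h
          · exact n2 h
      · rcases n2 with n2 | n2
        · rcases LR j (k - 1) (by omega) with h | h
          · exact n1 h
          · exact n2 h
        · rcases LR j k (by omega) with h | h
          · exact n1 h
          · exact n2 h
  · subst hj hk
    have n1 : ¬ Lf x P Q (j - 1) ∨ ¬ Lf x P Q j := by
      by_contra hc
      push Not at hc
      exact L2 j hc.1 hc.2 hi1 hi2
    have nR : ¬ Rt x P Q k := fun h => R1 k h hl2 hl1
    have hjk : j ≤ k := by omega
    have nL : ¬ Lf x P Q j := by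
      rcases n1 with n1 | n1
      · exfalso
        rcases LR (j - 1) k (by omega) with h | h
        · exact n1 h
        · exact nR h
      · exact n1
    by_cases hjk' : j = k
    · subst hjk'
      exact (X j nL nR).2.1 hi2 hl1
    · rcases LR j k (by omega) with h | h
      · exact nL h
      · exact nR h
  · subst hj hk
    have nL : ¬ Lf x P Q j := fun h => L1 j h hi1 hi2
    have n2 : ¬ Rt x P Q (k - 1) ∨ ¬ Rt x P Q k := by
      by_contra hc
      push Not at hc
      exact R2 k hc.1 hc.2 hl2 hl1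
    have hjk : j < k := by omega
    have nR : ¬ Rt x P Q (k - 1) := by
      rcases n2 with n2 | n2
      · exact n2
      · exfalso
        rcases LR j k (by omega) with h | h
        · exact nL h
        · exact n2 h
    by_cases hk1 : k = j + 1
    · subst hk1
      have u1 : j + 1 - 1 = j := by ring
      rw [u1] at nR
      have e1 : 2 * (j + 1) = 2 * j + 2 := by ring
      rw [e1] at hl1
      rw [F2' j] at hl1
      exact (X j nL nR).1 hi2 hl1
    · rcases LR j (k - 1) (by omega) with h | h
      · exact nL h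
      · exact nR h
  · subst hj hk
    have nL : ¬ Lf x P Q j := fun h => L1 j h hi1 hi2
    have nR : ¬ Rt x P Q k := fun h => R1 k h hl2 hl1
    rcases LR j k (by omega) with h | h
    · exact nL h
    · exact nR h

end Pool.Agent.PSX
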