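import Pool.Agent.PSW.Walk

set_option autoImplicit false

/-!
# Copies of a family of occupation numbers
-/

namespace Pool.Agent.PSX

open Finset Pool.Agent.PSW Pool.Agent.PLevel

theorem block_sum (f : ℕ → ℕ → ℕ) (R r : ℕ) :
    ∑ j ∈ range (R * r), f (j / r) (j % r) = ∑ i ∈ range R, ∑ j ∈ range r, f i j := by
  induction R with
  | zero => simp
  | succ R ih =>
    rw [Nat.succ_mul, sum_range_add, ih, sum_range_succ]
    congr 1
    apply sum_congr rfl
    intro x hx
    rw [mem_range] at hx
    have h0 : 0 < r := by omega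
    have e1 : (R * r + x) / r = R := by
      rw [Nat.mul_comm, Nat.mul_add_div h0, Nat.div_eq_of_lt hx, Nat.add_zero]
    have e2 : (R * r + x) % r = x := by
      rw [Nat.mul_comm, Nat.mul_add_mod, Nat.mod_eq_of_lt hx]
    rw [e1, e2]

theorem copies {r T k R p q : ℕ} (o : ℕ → ℕ) (c : ℕ → ℕ → ℕ) (hr : 0 < r) (hR : 1 ≤ R)
    (hk1 : 1 ≤ k)
    (hc : ∀ t ≤ T, ∀ j < r, c t j ≤ o j) (hk : ∀ t ≤ T, ∑ j ∈ range r, c t j = k)
    (hne : ∀ t < T, ∃ j < r, c t j ≠ c (t + 1) j)
    (hsep : ∀ s t, s < t → t ≤ T → ∀ i l, i < l → l < r → c s i < c t i → c t l < c s l → False) :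
    ∃ w, Sweep (R * ∑ j ∈ range r, o j + (p + q)) 1 w Fin.revPerm ∧
      R * T ≤ w.count (k + p - 1) := by
  classical
  set o' : ℕ → ℕ := fun j => if j < R * r then o (j % r) else if j = R * r then p else q with ho'
  set c' : ℕ → ℕ → ℕ := fun t j => if j < R * r then
    (if j / r = t / (T + 1) then c (t % (T + 1)) (j % r) else 0) else if j = R * r then p else 0
    with hc'
  have hT1 : 0 < T + 1 := Nat.succ_pos T
  have hmod : ∀ t, t % (T + 1) ≤ T := fun t => by
    have := Nat.mod_lt t hT1
    omega
  have hjmod : ∀ j, j % r < r := fun j => Nat.mod_lt j hr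
  -- sums
  have hso : ∑ j : Fin (R * r + 2), o' j = R * ∑ j ∈ range r, o j + (p + q) := by
    rw [Fin.sum_univ_eq_sum_range (fun j => o' j) (R * r + 2), sum_range_succ, sum_range_succ]
    have h1 : ∑ x ∈ range (R * r), o' x = R * ∑ j ∈ range r, o j := by
      have h2 : ∑ x ∈ range (R * r), o' x = ∑ x ∈ range (R * r), (fun _ j => o j) (x / r) (x % r) := by
        apply sum_congr rfl
        intro x hx
        rw [mem_range] at hx
        simp only [ho', if_pos hx]
      rw [h2, block_sum (fun _ j => o j)]
      simp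
    have h3 : o' (R * r) = p := by
      simp [ho']
    have h4 : o' (R * r + 1) = q := by
      simp only [ho']
      rw [if_neg (by omega), if_neg (by omega)]
    rw [h1, h3, h4]
    ring
  have hsc : ∀ t, t < R * (T + 1) → ∑ j : Fin (R * r + 2), c' t j = k + p := by
    intro t ht
    rw [Fin.sum_univ_eq_sum_range (fun j => c' t j) (R * r + 2), sum_range_succ, sum_range_succ]
    have h1 : ∑ x ∈ range (R * r), c' t x = k := by
      have h2 : ∑ x ∈ range (R * r), c' t x = ∑ x ∈ range (R * r),
          (fun i j => if i = t / (T + 1) then c (t % (T + 1)) j else 0) (x / r) (x % r) := by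
        apply sum_congr rfl
        intro x hx
        rw [mem_range] at hx
        simp only [hc', if_pos hx]
      rw [h2, block_sum (fun i j => if i = t / (T + 1) then c (t % (T + 1)) j else 0)]
      have h5 : t / (T + 1) < R := by
        rw [Nat.div_lt_iff_lt_mul hT1]
        exact ht
      rw [sum_eq_single (t / (T + 1))]
      · simp only [if_true]
        exact hk _ (hmod t)
      · intro b _ hb
        simp [hb]
      · intro h
        exact absurd (mem_range.2 h5) h
    have h3 : c' t (R * r) = p := by
      simp [hc']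
    have h4 : c' t (R * r + 1) = 0 := by
      simp only [hc']
      rw [if_neg (by omega), if_neg (by omega)]
    rw [h1, h3, h4]
    ring
  -- bounds
  have hb : ∀ t ≤ R * (T + 1) - 1, ∀ j : Fin (R * r + 2), c' t j ≤ o' j := by
    intro t ht j
    simp only [hc', ho']
    split_ifs
    · exact hc _ (hmod t) _ (hjmod _)
    · exact Nat.zero_le _
    · exact le_rfl
    · exact Nat.zero_le _
  have hRT : 1 ≤ R * (T + 1) := Nat.mul_pos hR hT1
  -- consecutive times
  have hn : ∀ t < R * (T + 1) - 1, (fun j : Fin (R * r + 2) => c' t j) ≠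
      fun j : Fin (R * r + 2) => c' (t + 1) j := by
    intro t ht heq
    have hval : ∀ j, j < R * r → c' t j = c' (t + 1) j := by
      intro j hj
      exact congrFun heq ⟨j, by omega⟩
    have hph : t / (T + 1) < R := by
      rw [Nat.div_lt_iff_lt_mul hT1]
      omega
    have hidx : ∀ j, j < r → (t / (T + 1)) * r + j < R * r := by
      intro j hj
      calc (t / (T + 1)) * r + j < (t / (T + 1)) * r + r := by omega
        _ = (t / (T + 1) + 1) * r := by ring
        _ ≤ R * r := Nat.mul_le_mul_right r hph
    have ediv : ∀ j, j < r → ((t / (T + 1)) * r + j) / r = t / (T + 1) := by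
      intro j hj
      rw [Nat.mul_comm, Nat.mul_add_div hr, Nat.div_eq_of_lt hj, Nat.add_zero]
    have emod : ∀ j, j < r → ((t / (T + 1)) * r + j) % r = j := by
      intro j hj
      rw [Nat.mul_comm, Nat.mul_add_mod, Nat.mod_eq_of_lt hj]
    by_cases hlast : t % (T + 1) = T
    · -- change of the copy
      have e1 : (t + 1) / (T + 1) ≠ t / (T + 1) := by
        have h1 := Nat.div_add_mod t (T + 1)
        rw [hlast] at h1
        have h2 : (T + 1) * (t / (T + 1) + 1) = (T + 1) * (t / (T + 1)) + (T + 1) := by ring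
        obtain ⟨h3, _⟩ := (Nat.div_mod_unique (a := t + 1) (b := T + 1) (c := 0)
          (d := t / (T + 1) + 1) hT1).2 ⟨by omega, by omega⟩
        omega
      have hzero : ∀ j, j < r → c (t % (T + 1)) j = 0 := by
        intro j hj
        have h := hval _ (hidx j hj)
        simp only [hc', if_pos (hidx j hj), ediv j hj, emod j hj, if_true] at h
        rw [if_neg (fun h => e1 h.symm)] at h
        exact h
      have := hk _ (hmod t)
      rw [sum_eq_zero (fun j hj => hzero j (mem_range.1 hj))] at this
      omega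
    · have hlt : t % (T + 1) < T := lt_of_le_of_ne (hmod t) hlast
      have h1 := Nat.div_add_mod t (T + 1)
      obtain ⟨e1, e2⟩ := (Nat.div_mod_unique (a := t + 1) (b := T + 1) (c := t % (T + 1) + 1)
        (d := t / (T + 1)) hT1).2 ⟨by omega, by omega⟩
      obtain ⟨j, hj, hjne⟩ := hne _ hlt
      apply hjne
      have h := hval _ (hidx j hj)
      simp only [hc', if_pos (hidx j hj), ediv j hj, emod j hj, if_true, e1, e2] at h
      exact h
  -- separation
  have hs : ∀ s t, s < t → t ≤ R * (T + 1) - 1 → ∀ i l : Fin (R * r + 2), i < l →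
      c' s i < c' t i → c' t l < c' s l → False := by
    intro s t hst ht i l hil h1 h2
    have hi1 : (i : ℕ) < R * r := by
      by_contra hno
      simp only [hc', if_neg hno] at h1
      exact lt_irrefl _ h1
    have hl1 : (l : ℕ) < R * r := by
      by_contra hno
      simp only [hc', if_neg hno] at h2
      exact lt_irrefl _ h2
    simp only [hc', if_pos hi1] at h1
    simp only [hc', if_pos hl1] at h2
    have a1 : (i : ℕ) / r = t / (T + 1) := by
      by_contra hno
      rw [if_neg hno] at h1
      exact Nat.not_lt_zero _ h1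
    have a2 : (l : ℕ) / r = s / (T + 1) := by
      by_contra hno
      rw [if_neg hno] at h2
      exact Nat.not_lt_zero _ h2
    have a3 : s / (T + 1) ≤ t / (T + 1) := Nat.div_le_div_right hst.le
    have a4 : (i : ℕ) / r ≤ (l : ℕ) / r := Nat.div_le_div_right (Fin.lt_def.1 hil).le
    have a5 : s / (T + 1) = t / (T + 1) := by omega
    rw [if_pos a1, if_pos (by omega)] at h1
    rw [if_pos a2, if_pos (by omega)] at h2
    have b1 := Nat.div_add_mod s (T + 1)
    have b2 := Nat.div_add_mod t (T + 1)
    rw [a5] at b1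
    have b3 := Nat.div_add_mod (i : ℕ) r
    have b4 := Nat.div_add_mod (l : ℕ) r
    have a6 : (i : ℕ) / r = (l : ℕ) / r := by omega
    rw [a6] at b3
    have hil' := Fin.lt_def.1 hil
    exact hsep (s % (T + 1)) (t % (T + 1)) (by omega) (hmod t) ((i : ℕ) % r) ((l : ℕ) % r)
      (by omega) (hjmod _) h1 h2
  obtain ⟨w, hw, hcnt⟩ := types (r := R * r + 2) (T := R * (T + 1) - 1) (k := k + p)
    (fun j => o' j) (fun t j => c' t j) hb (fun t ht => hsc t (by omega)) hn hs
  rw [hso] at hw
  refine ⟨w, hw, le_trans ?_ hcnt⟩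
  have : R * (T + 1) = R * T + R := by ring
  omega

end Pool.Agent.PSX
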