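import Pool.Agent.PSX.Local

set_option autoImplicit false

/-!
# The undetermined edge
-/

namespace Pool.Agent.PSX

/-- The three fine edges of the undetermined coarse edge, the coarse edge is not falling. -/
theorem core_pos {km k0 k1 kp c0 c1 c2 c3 km' k0' k1' kp' c0' c1' c2' c3' xm x0 x1 x2 : ℤ}
    (h : Ct km k0 k1 kp c0 c1 c2 c3) (h' : Ct km' k0' k1' kp' c0' c1' c2' c3')
    (hxm : 0 ≤ xm) (hx0 : 0 ≤ x0) (hx2 : 0 ≤ x2)
    (hpos : 0 < x0 ∨ 0 < x1)
    (hd : x0 ≤ x1) (hd' : x0 = x1 → k1 + k1' ≤ 1)
    (hu : x1 ≤ x0 + k0 + k0')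
    (hL : xm + km + km' < x0 ∨ (xm + km + km' = 0 ∧ x0 = 0))
    (hR : x2 + kp + kp' < x1 ∨ (x2 + kp + kp' = 0 ∧ x1 = 0))
    (hN : ¬ (k0 = 1 ∧ k0' = 1 ∧ x0 = 0 ∧ x1 = 1 ∧ x2 = 0)) :
    (0 < 8 * (x1 - xm) + (c1 - c0) + (c1' - c0') ∧
      (15 * (x1 - x0) + (c2 - c1) + (c2' - c1') ≤ 0 →
        8 * (x2 - x0) + (c3 - c2) + (c3' - c2') < 0)) ∨
    (15 * (x1 - x0) + (c2 - c1) + (c2' - c1') < 0 ∧
        8 * (x2 - x0) + (c3 - c2) + (c3' - c2') < 0) := by
  have q0 : k0 = 0 ∨ k0 = 1 := by have := h.sm; have := h.m0; have := h.z0; have := h.o0; have := h.p0; omega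
  have q0' : k0' = 0 ∨ k0' = 1 := by
    have := h'.sm; have := h'.m0; have := h'.z0; have := h'.o0; have := h'.p0; omega
  have s := h.sm
  have m0 := h.m0
  have z0 := h.z0
  have o0 := h.o0
  have p0 := h.p0
  have s' := h'.sm
  have m0' := h'.m0
  have z0' := h'.z0
  have o0' := h'.o0
  have p0' := h'.p0
  have e1 := h.e1
  have e2 := h.e2
  have e3 := h.e3
  have f1 := h'.e1
  have f2 := h'.e2
  have f3 := h'.e3
  rcases q0 with q | q <;> rcases q0' with q' | q'
  · -- no end at `j`
    left
    subst q q'
    have hx : x1 = x0 := by omega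
    subst hx
    have := hd' rfl
    constructor <;> omega
  · -- one end at `j`
    subst q q'
    have g3 := h'.e3'
    have hx : x1 = x0 ∨ x1 = x0 + 1 := by omega
    left
    rcases hx with hx | hx
    · have := hd' hx.symm
      constructor <;> omega
    · constructor
      · omega
      · intro hD
        by_cases hc : c2' - c1' = -15
        · have := g3 hc
          omega
        · omega
  · subst q q'
    have g3 := h.e3'
    have hx : x1 = x0 ∨ x1 = x0 + 1 := by omega
    left
    rcases hx with hx | hx
    · have := hd' hx.symm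
      constructor <;> omega
    · constructor
      · omega
      · intro hD
        by_cases hc : c2 - c1 = -15
        · have := g3 hc
          omega
        · omega
  · -- both ends at `j`
    subst q q'
    have g3 := h.e3'
    have g3' := h'.e3'
    have g5 := h.e5 rfl
    have g5' := h'.e5 rfl
    have g5a := h.e5a rfl
    have g5a' := h'.e5a rfl
    have g6 := h.e6 rfl
    have g6' := h'.e6 rfl
    have l1 := h.e4
    have l1' := h'.e4
    have hk1 : k1 = 0 := by omega
    have hk1' : k1' = 0 := by omega
    subst hk1 hk1'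
    have hx : x1 = x0 ∨ x1 = x0 + 1 ∨ x1 = x0 + 2 := by omega
    rcases hx with hx | hx | hx
    · -- x1 = x0
      by_cases hc : (c2 - c1) + (c2' - c1') < 0
      · right
        constructor <;> omega
      · left
        have w1 := g6 (by omega)
        have w2 := g6' (by omega)
        constructor <;> omega
    · left
      constructor
      · omega
      · intro hD
        by_cases hc : (c3 - c2) + (c3' - c2') < 0
        · omega
        · have w1 := g5a (by omega)
          have w2 := g5a' (by omega)
          omega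
    · left
      constructor
      · omega
      · intro hD
        have w1 := g3 (by omega)
        have w2 := g3' (by omega)
        omega

end Pool.Agent.PSX
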