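import Pool.Agent.PSX.Inf
import Pool.Agent.PSW.Walk
import Mathlib.Algebra.BigOperators.Intervals

set_option autoImplicit false

/-!
# The number of elements
-/

namespace Pool.Agent.PSX

open Finset Pool.Agent.PSW

/-- upper bounds of the differences of local times -/
def hi : ℕ → ℕ → ℤ
  | 0, i => if i = 2 then 1 else 0
  | D + 1, m => if m % 2 = 0 then 15 * hi D (m / 2) else 8 * (hi D (m / 2) + hi D (m / 2 + 1)) + 7

/-- lower bounds of the differences of local times -/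
def lo : ℕ → ℕ → ℤ
  | 0, i => if i = 1 then -1 else 0
  | D + 1, m => if m % 2 = 0 then 15 * lo D (m / 2) else 8 * (lo D (m / 2) + lo D (m / 2 + 1)) - 7

theorem hi_even (D i : ℕ) : hi (D + 1) (2 * i) = 15 * hi D i := by
  rw [hi, if_pos (by omega)]
  have : 2 * i / 2 = i := by omega
  rw [this]

theorem hi_odd (D i : ℕ) : hi (D + 1) (2 * i + 1) = 8 * (hi D i + hi D (i + 1)) + 7 := by
  rw [hi, if_neg (by omega)]
  have : (2 * i + 1) / 2 = i := by omega
  rw [this]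

theorem lo_even (D i : ℕ) : lo (D + 1) (2 * i) = 15 * lo D i := by
  rw [lo, if_pos (by omega)]
  have : 2 * i / 2 = i := by omega
  rw [this]

theorem lo_odd (D i : ℕ) : lo (D + 1) (2 * i + 1) = 8 * (lo D i + lo D (i + 1)) - 7 := by
  rw [lo, if_neg (by omega)]
  have : (2 * i + 1) / 2 = i := by omega
  rw [this]

/-- the difference of local times at adjacent sites -/
def dd (t : ℕ) (j : ℤ) : ℤ := L t (j - 1) - L t j

theorem dd_even (t r : ℕ) (hr : r ≤ 62) (j : ℤ) :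
    (15 * dd t j ≤ dd (62 * t + r) (2 * j) ∨ 15 * dd (t + 1) j ≤ dd (62 * t + r) (2 * j)) ∧
    (dd (62 * t + r) (2 * j) ≤ 15 * dd t j ∨ dd (62 * t + r) (2 * j) ≤ 15 * dd (t + 1) j) := by
  have c := ct_of (gd_pvt (sn t) hr) (A t) (j - 1)
  have e1 : j - 1 + 1 = j := by ring
  have e2 : 2 * (j - 1) + 1 - 2 * A t + 1 = 2 * j - 1 - 2 * A t + 1 := by ring
  have e3 : 2 * (j - 1) + 2 - 2 * A t + 1 = 2 * j - 2 * A t + 1 := by ring
  have c3 := c.e3
  have c4 := c.e4
  have z0 := c.z0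
  have o0 := c.o0
  have m0 := c.m0
  have p0 := c.p0
  have sm := c.sm
  rw [e2, e3] at c3 c4
  rw [e1] at c4 o0 sm
  unfold dd
  rw [L_eq t r hr, L_eq t r hr, L_succ, L_succ]
  have u1 := up_odd (L t) (j - 1)
  rw [e1] at u1
  have e4 : 2 * (j - 1) + 1 = 2 * j - 1 := by ring
  rw [e4] at u1
  rw [u1, up_even]
  unfold at4t
  omega

theorem dd_odd (t r : ℕ) (hr : r ≤ 62) (j : ℤ) :
    (8 * (dd t j + dd t (j + 1)) - 7 ≤ dd (62 * t + r) (2 * j + 1) ∨
      8 * (dd (t + 1) j + dd (t + 1) (j + 1)) - 7 ≤ dd (62 * t + r) (2 * j + 1)) ∧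
    (dd (62 * t + r) (2 * j + 1) ≤ 8 * (dd t j + dd t (j + 1)) + 7 ∨
      dd (62 * t + r) (2 * j + 1) ≤ 8 * (dd (t + 1) j + dd (t + 1) (j + 1)) + 7) := by
  have c := ct_of (gd_pvt (sn t) hr) (A t) j
  have c1 := c.e1
  have c1' := c.e1'
  have z0 := c.z0
  have o0 := c.o0
  have m0 := c.m0
  have p0 := c.p0
  have sm := c.sm
  have e1 : j + 1 - 1 = j := by ring
  have e2 : 2 * j + 1 - 1 = 2 * j := by ring
  unfold dd
  rw [e2, e1, L_eq t r hr, L_eq t r hr, L_succ, L_succ, L_succ]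
  rw [up_odd, up_even]
  unfold at4t
  omega

theorem bounds (D : ℕ) : ∀ t, t ≤ 62 ^ D → ∀ i : ℕ,
    lo D i ≤ dd t ((i : ℤ) - 2 ^ D) ∧ dd t ((i : ℤ) - 2 ^ D) ≤ hi D i := by
  induction D with
  | zero =>
    intro t ht i
    rw [pow_zero] at ht
    rw [pow_zero]
    have h1 : t = 0 ∨ t = 1 := by omega
    rcases h1 with h1 | h1
    · subst h1
      unfold dd
      rw [L_zero, L_zero, lo, hi]
      constructor <;> split_ifs <;> omega
    · subst h1
      unfold dd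
      have e : ∀ j, L 1 j = ind 0 j := by
        intro j
        have : L 1 j = L 0 j + ind (A 0) j := rfl
        rw [this, L_zero, A_zero]
        ring
      rw [e, e, lo, hi]
      unfold ind
      constructor <;> split_ifs <;> omega
  | succ D ih =>
    intro n hn m
    obtain ⟨t, r, hr, ht, hnt⟩ : ∃ t r, r ≤ 62 ∧ t + 1 ≤ 62 ^ D ∧ n = 62 * t + r := by
      rw [pow_succ] at hn
      have hpos : 0 < 62 ^ D := by positivity
      by_cases hc : n = 62 ^ D * 62
      · exact ⟨62 ^ D - 1, 62, le_rfl, by omega, by omega⟩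
      · exact ⟨n / 62, n % 62, by omega, by omega, by omega⟩
    obtain ⟨i, hi'⟩ : ∃ i, m = 2 * i ∨ m = 2 * i + 1 := ⟨m / 2, by omega⟩
    have hp : (2 : ℤ) ^ (D + 1) = 2 * 2 ^ D := by ring
    obtain ⟨a1, a2⟩ := ih t (by omega) i
    obtain ⟨a3, a4⟩ := ih (t + 1) ht i
    obtain ⟨b1, b2⟩ := ih t (by omega) (i + 1)
    obtain ⟨b3, b4⟩ := ih (t + 1) ht (i + 1)
    rcases hi' with h | h
    · subst h
      rw [hi_even, lo_even, hnt, hp]
      have e : ((2 * i : ℕ) : ℤ) - 2 * 2 ^ D = 2 * ((i : ℤ) - 2 ^ D) := by push_cast; ring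
      rw [e]
      have := dd_even t r hr ((i : ℤ) - 2 ^ D)
      omega
    · subst h
      rw [hi_odd, lo_odd, hnt, hp]
      have e : ((2 * i + 1 : ℕ) : ℤ) - 2 * 2 ^ D = 2 * ((i : ℤ) - 2 ^ D) + 1 := by push_cast; ring
      rw [e]
      have := dd_odd t r hr ((i : ℤ) - 2 ^ D)
      have e' : ((i : ℤ) - 2 ^ D) + 1 = ((i + 1 : ℕ) : ℤ) - 2 ^ D := by push_cast; ring
      rw [e'] at this
      omega

theorem sum_even_odd (f : ℕ → ℕ) (r : ℕ) :
    ∑ m ∈ range (2 * r + 1), f m = ∑ i ∈ range (r + 1), f (2 * i) +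
      ∑ i ∈ range r, f (2 * i + 1) := by
  induction r with
  | zero => simp
  | succ r ih =>
    have e : 2 * (r + 1) + 1 = 2 * r + 1 + 1 + 1 := by ring
    rw [e, sum_range_succ, sum_range_succ, ih, sum_range_succ (fun i => f (2 * i)) (r + 1),
      sum_range_succ (fun i => f (2 * i + 1)) r]
    have e1 : 2 * r + 1 + 1 = 2 * (r + 1) := by ring
    rw [e1]
    ring

/-- the width of the interval of the differences -/
def gg (D i : ℕ) : ℕ := (hi D i - lo D i).toNat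

theorem lo_hi (D : ℕ) : ∀ i, lo D i ≤ 0 ∧ 0 ≤ hi D i := by
  induction D with
  | zero =>
    intro i
    rw [lo, hi]
    constructor <;> split_ifs <;> omega
  | succ D ih =>
    intro m
    obtain ⟨i, hi'⟩ : ∃ i, m = 2 * i ∨ m = 2 * i + 1 := ⟨m / 2, by omega⟩
    have a := ih i
    have b := ih (i + 1)
    rcases hi' with h | h
    · subst h
      rw [hi_even, lo_even]
      omega
    · subst h
      rw [hi_odd, lo_odd]
      omega

theorem gg_even (D i : ℕ) : gg (D + 1) (2 * i) = 15 * gg D i := by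
  unfold gg
  rw [hi_even, lo_even]
  have := lo_hi D i
  omega

theorem gg_odd (D i : ℕ) : gg (D + 1) (2 * i + 1) = 8 * (gg D i + gg D (i + 1)) + 14 := by
  unfold gg
  rw [hi_odd, lo_odd]
  have := lo_hi D i
  have := lo_hi D (i + 1)
  omega

/-- the number of elements -/
def NN (D : ℕ) : ℕ := ∑ i ∈ range (3 * 2 ^ D + 1), gg D i

theorem NN_zero : NN 0 = 2 := by
  decide

theorem NN_succ (D : ℕ) : NN (D + 1) ≤ 31 * NN D + 42 * 2 ^ D := by
  unfold NN
  have e : 3 * 2 ^ (D + 1) + 1 = 2 * (3 * 2 ^ D) + 1 := by ring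
  rw [e, sum_even_odd]
  simp only [gg_even, gg_odd]
  rw [← mul_sum, sum_add_distrib, ← mul_sum, sum_add_distrib, sum_const, card_range, smul_eq_mul]
  have h1 : ∑ i ∈ range (3 * 2 ^ D), gg D i ≤ ∑ i ∈ range (3 * 2 ^ D + 1), gg D i := by
    rw [sum_range_succ]
    omega
  have h2 : ∑ i ∈ range (3 * 2 ^ D), gg D (i + 1) ≤ ∑ i ∈ range (3 * 2 ^ D + 1), gg D i := by
    rw [sum_range_succ' _ (3 * 2 ^ D)]
    omega
  omega

theorem NN_le (D : ℕ) : 29 * NN D + 42 * 2 ^ D ≤ 100 * 31 ^ D := by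
  induction D with
  | zero =>
    rw [NN_zero]
    norm_num
  | succ D ih =>
    have := NN_succ D
    have e1 : (2 : ℕ) ^ (D + 1) = 2 * 2 ^ D := by ring
    have e2 : (31 : ℕ) ^ (D + 1) = 31 * 31 ^ D := by ring
    rw [e1, e2]
    omega

/-- the range of the walk -/
theorem A_range (D : ℕ) : ∀ t, t < 62 ^ D → 1 ≤ A t + 2 ^ D ∧ A t + 2 ^ D ≤ 3 * 2 ^ D - 2 := by
  induction D with
  | zero =>
    intro t ht
    rw [pow_zero] at ht
    have : t = 0 := by omega
    subst this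
    rw [A_zero, pow_zero]
    constructor <;> omega
  | succ D ih =>
    intro n hn
    rw [pow_succ] at hn
    obtain ⟨t, r, hr, hnt⟩ : ∃ t r, r < 62 ∧ n = 62 * t + r := ⟨n / 62, n % 62, by omega, by omega⟩
    have := ih t (by omega)
    have hl := lab_bd (sn t) hr
    have e1 : (2 : ℤ) ^ (D + 1) = 2 * 2 ^ D := by ring
    rw [hnt, A_eq t hr, e1]
    omega

/-- the walk on natural numbers -/
def aa (D t : ℕ) : ℕ := (A t + 2 ^ D).toNat

theorem loc_aa (D : ℕ) (i t : ℕ) (ht : t ≤ 62 ^ D) :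
    (loc (aa D) i t : ℤ) = L t ((i : ℤ) - 2 ^ D) := by
  induction t with
  | zero =>
    rw [L_zero]
    simp [loc]
  | succ t ih =>
    rw [loc_succ, L_succ, ← ih (by omega)]
    have := A_range D t (by omega)
    unfold aa ind
    split_ifs <;> push_cast <;> omega

theorem L_out (D t : ℕ) (ht : t ≤ 62 ^ D) (j : ℤ) (hj : j ≤ -2 ^ D) : L t j = 0 := by
  induction t with
  | zero => rfl
  | succ t ih =>
    rw [L_succ, ih (by omega)]
    have := A_range D t (by omega)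
    rw [ind_ne (by omega)]
    rfl

theorem dif_aa (D : ℕ) (i t : ℕ) (ht : t ≤ 62 ^ D) :
    dif (aa D) i t = dd t ((i : ℤ) - 2 ^ D) := by
  unfold dif dd
  rw [loc_aa D i t ht]
  by_cases h : i = 0
  · subst h
    rw [if_pos rfl, L_out D t ht (((0 : ℕ) : ℤ) - 2 ^ D) (by push_cast; omega),
      L_out D t ht (((0 : ℕ) : ℤ) - 2 ^ D - 1) (by push_cast; omega)]
  · rw [if_neg h, loc_aa D (i - 1) t ht]
    have : ((i - 1 : ℕ) : ℤ) - 2 ^ D = (i : ℤ) - 2 ^ D - 1 := by
      rw [Nat.cast_sub (by omega)]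
      push_cast
      ring
    rw [this]

theorem aa_lt (D t : ℕ) (ht : t < 62 ^ D) : aa D t < 3 * 2 ^ D := by
  have := A_range D t ht
  unfold aa
  have e : ((3 * 2 ^ D : ℕ) : ℤ) = 3 * 2 ^ D := by push_cast; ring
  omega

theorem uni_aa (D : ℕ) (s t : ℕ) (hst : s < t) (ht : t ≤ 62 ^ D) (i l : ℕ) (hil : i < l)
    (h1 : dif (aa D) i s < dif (aa D) i t) (h2 : dif (aa D) l t < dif (aa D) l s) : False := by
  rw [dif_aa D i s (by omega), dif_aa D i t ht] at h1
  rw [dif_aa D l s (by omega), dif_aa D l t ht] at h2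
  unfold dd at h1 h2
  have m1 := L_mono hst.le ((i : ℤ) - 2 ^ D)
  have m2 := L_mono hst.le ((l : ℤ) - 2 ^ D - 1)
  have w := windows t s hst.le ((i : ℤ) - 2 ^ D - 1) ((l : ℤ) - 2 ^ D - 1) (by omega)
  have e1 : (i : ℤ) - 2 ^ D - 1 + 1 = (i : ℤ) - 2 ^ D := by ring
  have e2 : (l : ℤ) - 2 ^ D - 1 + 1 = (l : ℤ) - 2 ^ D := by ring
  simp only [e1, e2] at w
  exact w (by omega) (by omega) (by omega) (by omega)

end Pool.Agent.PSX
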