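import Pool.Agent.PSX.Pairs

set_option autoImplicit false

/-!
# The infinite walk
-/

namespace Pool.Agent.PSX

/-- the orientation of a letter -/
def sg (x y z : ℤ) : Bool := decide (y < x ∨ z < y)

/-- the infinite walk -/
def A (n : ℕ) : ℤ :=
  if h : n < 62 then lab false n - 1
  else 2 * A (n / 62) - 1 + lab (sg (A (n / 62 - 1)) (A (n / 62)) (A (n / 62 + 1))) (n % 62)
termination_by n
decreasing_by all_goals omega

/-- the orientation of the letter `t` -/
def sn (t : ℕ) : Bool := sg (A (t - 1)) (A t) (A (t + 1))

theorem A_small {n : ℕ} (h : n < 62) : A n = lab false n - 1 := by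
  rw [A]
  exact dif_pos h

theorem A_zero : A 0 = 0 := by
  rw [A_small (by omega)]
  rfl

theorem A_one : A 1 = 0 := by
  rw [A_small (by omega)]
  rfl

theorem sn_zero : sn 0 = false := by
  unfold sn
  rw [Nat.zero_sub, Nat.zero_add, A_zero, A_one]
  rfl

theorem A_eq (t : ℕ) {r : ℕ} (h : r < 62) : A (62 * t + r) = 2 * A t - 1 + lab (sn t) r := by
  by_cases ht : t = 0
  · subst ht
    rw [Nat.mul_zero, Nat.zero_add, A_small h, A_zero, sn_zero]
    ring
  · rw [A, dif_neg (by omega)]
    have e1 : (62 * t + r) / 62 = t := by omega
    have e2 : (62 * t + r) % 62 = r := by omega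
    rw [e1, e2]
    rfl

theorem lab_bd (b : Bool) {r : ℕ} (h : r < 62) : 0 ≤ lab b r ∧ lab b r ≤ 3 := by
  obtain ⟨h1, h2, _⟩ := step_tab r h
  cases b
  · exact ⟨h1, h2⟩
  · simp only [lab, if_true]
    omega

theorem sn_false {t : ℕ} (h1 : A (t - 1) ≤ A t) (h2 : A t ≤ A (t + 1)) : sn t = false := by
  unfold sn sg
  rw [decide_eq_false_iff_not]
  omega

theorem sn_true {t : ℕ} (h : A t < A (t - 1) ∨ A (t + 1) < A t) : sn t = true := by
  unfold sn sg
  rw [decide_eq_true_eq]
  omega

/-- the steps are `-1, 0, 1` and every run has length at least two -/
theorem step_run (n : ℕ) : (A (n + 1) - A n ≤ 1 ∧ A n - A (n + 1) ≤ 1) ∧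
    (A n = A (n - 1) ∨ A (n + 1) = A n) := by
  induction n using Nat.strong_induction_on with
  | _ n ih =>
    obtain ⟨t, r, hr, hn⟩ : ∃ t r, r < 62 ∧ n = 62 * t + r := ⟨n / 62, n % 62, by omega, by omega⟩
    have hbase : t = 0 → (A (t + 1) - A t ≤ 1 ∧ A t - A (t + 1) ≤ 1) ∧
        (A t = A (t - 1) ∨ A (t + 1) = A t) := by
      intro h
      subst h
      rw [Nat.zero_add, A_zero, A_one]
      exact ⟨⟨by omega, by omega⟩, Or.inr rfl⟩
    have ht : (A (t + 1) - A t ≤ 1 ∧ A t - A (t + 1) ≤ 1) ∧
        (A t = A (t - 1) ∨ A (t + 1) = A t) := by
      by_cases h0 : t = 0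
      · exact hbase h0
      · exact ih t (by omega)
    have hlast : r = 61 → n ≠ 61 → (A (t + 1) = A t ∨ A (t + 1 + 1) = A (t + 1)) := by
      intro h61 hne
      have := (ih (t + 1) (by omega)).2
      rw [Nat.add_sub_cancel] at this
      exact this
    constructor
    · by_cases h61 : r = 61
      · subst h61
        have e1 : n + 1 = 62 * (t + 1) + 0 := by omega
        rw [e1, A_eq (t + 1) (by omega), hn, A_eq t (by omega)]
        have l0 : ∀ b, lab b 0 = if b then 2 else 1 := by
          intro b; cases b <;> rfl
        have l61 : ∀ b, lab b 61 = if b then 1 else 2 := by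
          intro b; cases b <;> rfl
        rw [l0, l61]
        have hdis : A (t + 1) = A t ∨ A (t + 1) = A t + 1 ∨ A (t + 1) = A t - 1 := by omega
        rcases hdis with hd | hd | hd
        · rw [hd]
          split_ifs <;> omega
        · have s1 : sn t = false := by
            apply sn_false
            · rcases ht.2 with h | h
              · exact h.ge
              · omega
            · omega
          have s2 : sn (t + 1) = false := by
            apply sn_false
            · rw [Nat.add_sub_cancel]
              omega
            · by_cases hn61 : n = 61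
              · have : t = 0 := by omega
                subst this
                rw [Nat.zero_add, A_zero, A_one] at hd
                omega
              · rcases hlast rfl hn61 with h | h
                · omega
                · exact h.ge
          rw [s1, s2, hd]
          simp only [Bool.false_eq_true, if_false]
          omega
        · have s1 : sn t = true := sn_true (Or.inr (by omega))
          have s2 : sn (t + 1) = true := by
            apply sn_true
            left
            rw [Nat.add_sub_cancel]
            omega
          rw [s1, s2, hd]
          simp only [if_true]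
          omega
      · have e1 : n + 1 = 62 * t + (r + 1) := by omega
        rw [e1, A_eq t (by omega), hn, A_eq t (by omega)]
        have := step_w r (by omega)
        cases sn t <;> simp only [lab, Bool.false_eq_true, if_false, if_true] <;> omega
    · by_cases h0 : r = 0
      · subst h0
        right
        have e1 : n + 1 = 62 * t + 1 := by omega
        rw [e1, A_eq t (by omega), hn, A_eq t (by omega)]
        have : ∀ b, lab b 1 = lab b 0 := by intro b; cases b <;> rfl
        rw [this]
      · by_cases h61 : r = 61
        · subst h61
          left
          have e1 : n - 1 = 62 * t + 60 := by omega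
          rw [e1, A_eq t (by omega), hn, A_eq t (by omega)]
          have : ∀ b, lab b 61 = lab b 60 := by intro b; cases b <;> rfl
          rw [this]
        · obtain ⟨q, hq⟩ : ∃ q, r = q + 1 := ⟨r - 1, by omega⟩
          subst hq
          have e1 : n - 1 = 62 * t + q := by omega
          have e2 : n + 1 = 62 * t + (q + 2) := by omega
          rw [e1, e2, A_eq t (by omega), A_eq t (by omega), hn, A_eq t (by omega)]
          have := run_w q (by omega)
          cases sn t <;> simp only [lab, Bool.false_eq_true, if_false, if_true] <;> omega

theorem step_le (n : ℕ) : A (n + 1) - A n ≤ 1 ∧ A n - A (n + 1) ≤ 1 := (step_run n).1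

theorem run (n : ℕ) : A n = A (n - 1) ∨ A (n + 1) = A n := (step_run n).2

/-- number of visits -/
def L : ℕ → ℤ → ℤ
  | 0, _ => 0
  | n + 1, j => L n j + ind (A n) j

theorem L_zero (j : ℤ) : L 0 j = 0 := rfl

theorem L_succ (n : ℕ) (j : ℤ) : L (n + 1) j = L n j + ind (A n) j := rfl

theorem up_add (x : ℤ → ℤ) (P m : ℤ) :
    up (fun j => x j + ind P j) m = up x m + at4 8 23 23 8 (m - 2 * P + 1) := by
  obtain ⟨j, hj⟩ : ∃ j, m = 2 * j ∨ m = 2 * j + 1 := ⟨m / 2, by omega⟩
  rcases hj with hj | hj
  · subst hj
    rw [up_even, up_even]
    unfold at4 ind
    split_ifs <;> omega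
  · subst hj
    rw [up_odd, up_odd]
    unfold at4 ind
    split_ifs <;> omega

theorem up_sub (x y : ℤ → ℤ) (m : ℤ) : up (fun j => x j - y j) m = up x m - up y m := by
  unfold up
  split_ifs <;> ring

theorem up_zero (m : ℤ) : up (fun _ => 0) m = 0 := by
  unfold up
  split_ifs <;> rfl

theorem pvt_62 (b : Bool) : pvt b 62 = (8, 23, 23, 8) := by
  cases b <;> rfl

theorem pvt_0 (b : Bool) : pvt b 0 = (0, 0, 0, 0) := by
  cases b <;> rfl

theorem at4t_zero (i : ℤ) : at4t (0, 0, 0, 0) i = 0 := by
  unfold at4t at4
  split_ifs <;> rfl

/-- the profile of the fine walk -/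
theorem L_eq (t : ℕ) : ∀ r, r ≤ 62 → ∀ m,
    L (62 * t + r) m = up (L t) m + at4t (pvt (sn t) r) (m - 2 * A t + 1) := by
  induction t with
  | zero =>
    intro r
    induction r with
    | zero =>
      intro _ m
      rw [Nat.mul_zero, Nat.add_zero, pvt_0, at4t_zero, L_zero]
      have : L 0 = fun _ => 0 := rfl
      rw [this, up_zero]
      rfl
    | succ r ih =>
      intro hr m
      rw [← Nat.add_assoc, L_succ, ih (by omega), pvt_succ _ (by omega), A_eq 0 (by omega)]
      have : ind (2 * A 0 - 1 + lab (sn 0) r) m = ind (lab (sn 0) r) (m - 2 * A 0 + 1) := by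
        unfold ind
        split_ifs <;> omega
      rw [this]
      ring
  | succ t iht =>
    intro r
    induction r with
    | zero =>
      intro _ m
      rw [Nat.add_zero, pvt_0, at4t_zero]
      have e1 : 62 * (t + 1) = 62 * t + 62 := by ring
      rw [e1, iht 62 le_rfl, pvt_62]
      have e2 : L (t + 1) = fun j => L t j + ind (A t) j := rfl
      rw [e2, up_add]
      unfold at4t
      ring
    | succ r ih =>
      intro hr m
      rw [← Nat.add_assoc, L_succ, ih (by omega), pvt_succ _ (by omega), A_eq (t + 1) (by omega)]
      have : ind (2 * A (t + 1) - 1 + lab (sn (t + 1)) r) m =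
          ind (lab (sn (t + 1)) r) (m - 2 * A (t + 1) + 1) := by
        unfold ind
        split_ifs <;> omega
      rw [this]
      ring

theorem L_mono {s t : ℕ} (h : s ≤ t) (j : ℤ) : L s j ≤ L t j := by
  induction t, h using Nat.le_induction with
  | base => exact le_refl _
  | succ t _ ih =>
    have := ind_nonneg (A t) j
    rw [L_succ]
    omega

theorem L_visit {s u t : ℕ} (h1 : s ≤ u) (h2 : u < t) : L s (A u) + 1 ≤ L t (A u) := by
  have a := L_mono h1 (A u)
  have b := L_mono (Nat.succ_le_of_lt h2) (A u)
  rw [Nat.succ_eq_add_one, L_succ, ind_self] at b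
  omega

theorem cp_at4 (p : ℤ × ℤ × ℤ × ℤ) (i : ℤ) :
    at4 8 23 23 8 i - at4t p i = at4t (cp p) i := by
  unfold at4t at4 cp
  split_ifs <;> simp

theorem mem_tb (b : Bool) {r : ℕ} (h : r ≤ 62) : ∃ p ∈ tb, pvt b r = if b then rv p else p := by
  refine ⟨pt r, pt_mem h, ?_⟩
  cases b <;> rfl

/-- all windows of the infinite walk -/
theorem windows (n : ℕ) : ∀ s, s ≤ n → S (fun j => L n j - L s j) := by
  induction n using Nat.strong_induction_on with
  | _ n ih =>
    intro s' hs
    obtain ⟨t, r, hr, hn⟩ : ∃ t r, r < 62 ∧ n = 62 * t + r := ⟨n / 62, n % 62, by omega, by omega⟩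
    obtain ⟨s, q, hq, hs'⟩ : ∃ s q, q < 62 ∧ s' = 62 * s + q :=
      ⟨s' / 62, s' % 62, by omega, by omega⟩
    have hst : s ≤ t := by omega
    by_cases heq : s = t
    · -- inside a letter
      subst heq
      have hqr : q ≤ r := by omega
      have hmono : ∀ i, 0 ≤ i → i ≤ 3 → at4t (pvt (sn s) q) i ≤ at4t (pvt (sn s) r) i := by
        intro i _ _
        have h1 := L_mono (show 62 * s + q ≤ 62 * s + r by omega) (i + 2 * A s - 1)
        rw [L_eq s q (by omega), L_eq s r (by omega)] at h1
        have e : i + 2 * A s - 1 - 2 * A s + 1 = i := by ring
        rw [e] at h1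
        omega
      have h0 := hmono 0 (by omega) (by omega)
      have h1 := hmono 1 (by omega) (by omega)
      have h2 := hmono 2 (by omega) (by omega)
      have h3 := hmono 3 (by omega) (by omega)
      unfold at4t at h0 h1 h2 h3
      rw [at4_0, at4_0] at h0
      rw [at4_1, at4_1] at h1
      rw [at4_2, at4_2] at h2
      rw [at4_3, at4_3] at h3
      have key : S (fun i => at4t (pvt (sn s) r) i - at4t (pvt (sn s) q) i) := by
        have hz : ∀ m, m < 0 ∨ 5 < m → at4t (pvt (sn s) r) m - at4t (pvt (sn s) q) m = 0 := by
          intro m hm
          unfold at4t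
          rw [at4_out (by omega), at4_out (by omega)]
          rfl
        apply S_of_c6 hz
        unfold at4t
        rw [at4_0, at4_0, at4_1, at4_1, at4_2, at4_2, at4_3, at4_3, at4_out (by omega),
          at4_out (by omega), at4_out (by omega), at4_out (by omega)]
        cases hb : sn s
        · rw [hb] at h0 h1 h2 h3
          exact (chk_in _ (pt_mem (show q ≤ 62 by omega)) _ (pt_mem (show r ≤ 62 by omega))
            h0 h1 h2 h3).1
        · rw [hb] at h0 h1 h2 h3
          have := chk_in _ (pt_mem (show q ≤ 62 by omega)) _ (pt_mem (show r ≤ 62 by omega))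
            h3 h2 h1 h0
          exact this.2
      have := S_shift (-2 * A s + 1) key
      intro i l hil
      have e : ∀ m, L n m - L s' m = at4t (pvt (sn s) r) (m + (-2 * A s + 1)) -
          at4t (pvt (sn s) q) (m + (-2 * A s + 1)) := by
        intro m
        rw [hn, hs', L_eq s r (by omega), L_eq s q (by omega)]
        have : m - 2 * A s + 1 = m + (-2 * A s + 1) := by ring
        rw [this]
        ring
      simp only [e]
      exact this i l hil
    · have hlt : s + 1 ≤ t := by omega
      have eF : ∀ m, L n m - L s' m = up (fun j => L t j - L (s + 1) j) m +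
          at4t (cp (pvt (sn s) q)) (m - 2 * A s + 1) +
          at4t (pvt (sn t) r) (m - 2 * A t + 1) := by
        intro m
        have e1 : L (s + 1) = fun j => L s j + ind (A s) j := rfl
        have e2 := up_add (L s) (A s) m
        rw [← e1] at e2
        rw [hn, hs', L_eq s q (by omega), L_eq t r (by omega), up_sub, e2, ← cp_at4]
        ring
      have gv := gd_cp (sn s) (show q ≤ 62 by omega)
      have gw := gd_pvt (sn t) (show r ≤ 62 by omega)
      have stp := step_le s
      by_cases h1 : t = s + 1
      · -- consecutive letters
        subst h1
        have eF' : ∀ m, L n m - L s' m = at4t (cp (pvt (sn s) q)) (m - 2 * A s + 1) +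
            at4t (pvt (sn (s + 1)) r) (m - 2 * A (s + 1) + 1) := by
          intro m
          rw [eF, up_sub]
          ring
        have hdis : A (s + 1) = A s ∨ A (s + 1) = A s + 1 ∨ A (s + 1) = A s - 1 := by omega
        have hp := pt_mem (show q ≤ 62 by omega)
        have hq' := pt_mem (show r ≤ 62 by omega)
        have runs1 := run s
        have runs2 := run (s + 1)
        rw [Nat.add_sub_cancel] at runs2
        rcases hdis with hd | hd | hd
        · have key : S (fun i => at4t (cp (pvt (sn s) q)) i + at4t (pvt (sn (s + 1)) r) i) := by
            obtain ⟨k1, k2, k3, k4⟩ := chk_0 _ hp _ hq'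
            apply S_same
            cases sn s <;> cases sn (s + 1)
            · exact k1
            · exact k2
            · exact k3
            · exact k4
          have := S_shift (-2 * A s + 1) key
          intro i l hil
          have e : ∀ m, L n m - L s' m = at4t (cp (pvt (sn s) q)) (m + (-2 * A s + 1)) +
              at4t (pvt (sn (s + 1)) r) (m + (-2 * A s + 1)) := by
            intro m
            rw [eF', hd]
            have : m - 2 * A s + 1 = m + (-2 * A s + 1) := by ring
            rw [this]
          simp only [e]
          exact this i l hil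
        · have s1 : sn s = false := by
            apply sn_false
            · rcases runs1 with h | h
              · exact h.ge
              · omega
            · omega
          have s2 : sn (s + 1) = false := by
            apply sn_false
            · rw [Nat.add_sub_cancel]
              omega
            · rcases runs2 with h | h
              · omega
              · exact h.ge
          have key : S (fun i => at4t (cp (pvt (sn s) q)) i +
              at4t (pvt (sn (s + 1)) r) (i - 2)) := by
            apply S_two
            rw [s1, s2]
            exact (chk_1 _ hp _ hq').1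
          have := S_shift (-2 * A s + 1) key
          intro i l hil
          have e : ∀ m, L n m - L s' m = at4t (cp (pvt (sn s) q)) (m + (-2 * A s + 1)) +
              at4t (pvt (sn (s + 1)) r) (m + (-2 * A s + 1) - 2) := by
            intro m
            rw [eF', hd]
            have e1 : m - 2 * A s + 1 = m + (-2 * A s + 1) := by ring
            have e2 : m - 2 * (A s + 1) + 1 = m + (-2 * A s + 1) - 2 := by ring
            rw [e1, e2]
          simp only [e]
          exact this i l hil
        · have s1 : sn s = true := sn_true (Or.inr (by omega))
          have s2 : sn (s + 1) = true := by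
            apply sn_true
            left
            rw [Nat.add_sub_cancel]
            omega
          have key : S (fun i => at4t (pvt (sn (s + 1)) r) i +
              at4t (cp (pvt (sn s) q)) (i - 2)) := by
            apply S_two
            rw [s1, s2]
            exact (chk_1 _ hp _ hq').2
          have := S_shift (-2 * A s + 1 + 2) key
          intro i l hil
          have e : ∀ m, L n m - L s' m = at4t (pvt (sn (s + 1)) r) (m + (-2 * A s + 1 + 2)) +
              at4t (cp (pvt (sn s) q)) (m + (-2 * A s + 1 + 2) - 2) := by
            intro m
            rw [eF', hd]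
            have e1 : m - 2 * A s + 1 = m + (-2 * A s + 1 + 2) - 2 := by ring
            have e2 : m - 2 * (A s - 1) + 1 = m + (-2 * A s + 1 + 2) := by ring
            rw [e1, e2]
            ring
          simp only [e]
          exact this i l hil
      · -- a nonempty middle part
        have hlt2 : s + 2 ≤ t := by omega
        have n1 : t < n := by omega
        have n2 : t + 1 < n := by omega
        have w00 := ih t n1 (s + 1) hlt
        have w10 := ih t n1 s (by omega)
        have w01 := ih (t + 1) n2 (s + 1) (by omega)
        have w11 := ih (t + 1) n2 s (by omega)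
        set x : ℤ → ℤ := fun j => L t j - L (s + 1) j with hxdef
        have hx : ∀ j, 0 ≤ x j := by
          intro j
          have := L_mono hlt j
          simp only [hxdef]
          omega
        have g1 : (fun m => x m + ind (A s) m) = fun m => L t m - L s m := by
          funext m
          simp only [hxdef]
          rw [L_succ]
          ring
        have g2 : (fun m => x m + ind (A t) m) = fun m => L (t + 1) m - L (s + 1) m := by
          funext m
          simp only [hxdef]
          rw [L_succ t]
          ring
        have g3 : (fun m => x m + ind (A s) m + ind (A t) m) = fun m => L (t + 1) m - L s m := by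
          funext m
          simp only [hxdef]
          rw [L_succ t, L_succ s]
          ring
        have vis : ∀ u, s + 1 ≤ u → u < t → 0 < x (A u) := by
          intro u h1 h2
          have := L_visit h1 h2
          simp only [hxdef]
          omega
        have v1 := vis (s + 1) le_rfl (by omega)
        have aP : 0 < x (A s - 1) ∨ 0 < x (A s) ∨ 0 < x (A s + 1) := by
          have hdis : A (s + 1) = A s ∨ A (s + 1) = A s + 1 ∨ A (s + 1) = A s - 1 := by omega
          rcases hdis with hd | hd | hd <;> rw [hd] at v1
          · exact Or.inr (Or.inl v1)
          · exact Or.inr (Or.inr v1)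
          · exact Or.inl v1
        have aQ : 0 < x (A t - 1) ∨ 0 < x (A t) ∨ 0 < x (A t + 1) := by
          obtain ⟨u, hu⟩ : ∃ u, t = u + 1 := ⟨t - 1, by omega⟩
          have v2 := vis u (by omega) (by omega)
          have st := step_le u
          rw [← hu] at st
          have hdis : A u = A t ∨ A u = A t + 1 ∨ A u = A t - 1 := by omega
          rcases hdis with hd | hd | hd <;> rw [hd] at v2
          · exact Or.inr (Or.inl v2)
          · exact Or.inr (Or.inr v2)
          · exact Or.inl v2
        -- a single letter in the middle
        have dbl : ∀ c, A (s + 1) = c → A s ≠ c → A s = A t → x c ≠ 1 := by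
          intro c hc1 hc2 hst' hxc
          have hr2 : A (s + 2) = c := by
            rcases run (s + 1) with h | h
            · rw [Nat.add_sub_cancel] at h
              omega
            · have e : s + 1 + 1 = s + 2 := rfl
              rw [e] at h
              omega
          have ht2 : s + 2 < t := by
            rcases Nat.lt_or_ge (s + 2) t with h | h
            · exact h
            · exfalso
              have : t = s + 2 := by omega
              rw [this, hr2] at hst'
              exact hc2 hst'
          have b1 : L (s + 2) c = L (s + 1) c + 1 := by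
            rw [L_succ (s + 1), hc1, ind_self]
          have b2 : L (s + 3) c = L (s + 2) c + 1 := by
            rw [L_succ (s + 2), hr2, ind_self]
          have b3 := L_mono (show s + 3 ≤ t by omega) c
          simp only [hxdef] at hxc
          omega
        have hN : A s = A t → ¬ (x (A s) = 0 ∧ x (A s + 1) = 1 ∧ x (A s + 2) = 0) := by
          rintro hst' ⟨y0, y1, y2⟩
          have hdis : A (s + 1) = A s ∨ A (s + 1) = A s + 1 ∨ A (s + 1) = A s - 1 := by omega
          rcases hdis with hd | hd | hd
          · rw [hd] at v1
            omega
          · exact dbl (A s + 1) hd (by omega) hst' y1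
          · rw [hd] at v1
            have e1 : A s - 1 + 1 = A s := by ring
            refine w00 (A s - 1) (A s) (by omega) v1 ?_ ?_ ?_
            · rw [e1]
              omega
            · omega
            · omega
        have hN' : A s = A t → ¬ (x (A s) = 0 ∧ x (A s - 1) = 1 ∧ x (A s - 2) = 0) := by
          rintro hst' ⟨y0, y1, y2⟩
          have hdis : A (s + 1) = A s ∨ A (s + 1) = A s + 1 ∨ A (s + 1) = A s - 1 := by omega
          rcases hdis with hd | hd | hd
          · rw [hd] at v1
            omega
          · rw [hd] at v1
            have e1 : A s - 1 + 1 = A s := by ring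
            refine w00 (A s - 1) (A s) (by omega) ?_ ?_ ?_ v1
            · omega
            · rw [e1]
              omega
            · omega
          · exact dbl (A s - 1) hd (by omega) hst' y1
        have key := closure hx gv gw w00 (by rw [g1]; exact w10) (by rw [g2]; exact w01)
          (by rw [g3]; exact w11) aP aQ hN hN'
        intro i l hil
        simp only [eF]
        exact key i l hil

end Pool.Agent.PSX
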