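import Mathlib.Tactic.Linarith
import Mathlib.Tactic.Ring
import Mathlib.Data.Int.Basic

set_option autoImplicit false

/-!
# The local analysis of one refinement step

Profiles of a window of the coarse walk are functions `x : ℤ → ℤ`; `S x` says that `x` is strictly
unimodal on its support with at most two equal top sites. The refinement has the mask
`(8, 23, 23, 8)`.
-/

namespace Pool.Agent.PSX

/-- no edge which is weakly down (from a positive value) is left of an edge which is weakly up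
(to a positive value) -/
def S (F : ℤ → ℤ) : Prop :=
  ∀ i l, i < l → 0 < F i → F (i + 1) ≤ F i → F l ≤ F (l + 1) → 0 < F (l + 1) → False

/-- the conditions on the prefix vectors and suffix vectors of a word -/
def Gd (v0 v1 v2 v3 : ℤ) : Prop :=
  0 ≤ v0 ∧ 0 ≤ v3 ∧ v0 ≤ 8 ∧ v3 ≤ 8 ∧ (v0 < v1 ∨ (v0 = 0 ∧ v1 = 0)) ∧
  (v3 < v2 ∨ (v3 = 0 ∧ v2 = 0)) ∧ v1 - v0 ≤ 15 ∧ (v1 - v0 = 15 → v0 = 8) ∧
  v2 - v3 ≤ 15 ∧ (v2 - v3 = 15 → v3 = 8) ∧ v1 - v2 ≤ 7 ∧ v2 - v1 ≤ 7 ∧
  (v3 = 0 → v2 ≤ 7) ∧ (v0 = 0 → v1 ≤ 7) ∧ (v2 = 0 → v1 ≤ 3) ∧ (v1 = 0 → v2 ≤ 3)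

instance (v0 v1 v2 v3 : ℤ) : Decidable (Gd v0 v1 v2 v3) := by
  unfold Gd
  infer_instance

/-- the contribution of one end of a window to the values at `2j, 2j+1, 2j+2, 2j+3`; the numbers
`km, k0, k1, kp` say whether the end is at `j-1, j, j+1, j+2` -/
structure Ct (km k0 k1 kp c0 c1 c2 c3 : ℤ) : Prop where
  m0 : 0 ≤ km
  z0 : 0 ≤ k0
  o0 : 0 ≤ k1
  p0 : 0 ≤ kp
  sm : km + k0 + k1 + kp ≤ 1
  e1 : -8 * km - 7 * k0 ≤ c1 - c0
  e1' : c1 - c0 ≤ 7 * k0 + 8 * k1
  e2 : c3 - c2 ≤ 8 * kp + 7 * k1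
  e2' : -8 * k0 - 7 * k1 ≤ c3 - c2
  e3 : -15 * k0 ≤ c2 - c1
  e3' : c2 - c1 = -15 → c3 - c2 = -8
  e4 : c2 - c1 ≤ 15 * k1
  e4' : c2 - c1 = 15 → c1 - c0 = 8
  e5 : k0 = 1 → c3 - c2 ≤ 0
  e5a : k0 = 1 → c3 - c2 = 0 → -7 ≤ c2 - c1
  e5' : k1 = 1 → 0 ≤ c1 - c0
  e5a' : k1 = 1 → c1 - c0 = 0 → c2 - c1 ≤ 7
  e6 : k0 = 1 → c2 - c1 = 0 → -3 ≤ c1 - c0
  e6' : k1 = 1 → c2 - c1 = 0 → c3 - c2 ≤ 3
  e7 : k0 = 0 → c1 < c2 ∨ (c1 = 0 ∧ c2 = 0)
  e7' : k1 = 0 → c2 < c1 ∨ (c1 = 0 ∧ c2 = 0)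
  n0 : 0 ≤ c0
  n1 : 0 ≤ c1
  n2 : 0 ≤ c2
  n3 : 0 ≤ c3
  e8 : km = 0 → k0 = 0 → c0 = 0
  e8' : kp = 0 → k1 = 0 → c3 = 0

/-- the value of a vector with four entries -/
def at4 (v0 v1 v2 v3 i : ℤ) : ℤ :=
  if i = 0 then v0 else if i = 1 then v1 else if i = 2 then v2 else if i = 3 then v3 else 0

/-- indicator -/
def ind (P j : ℤ) : ℤ := if j = P then 1 else 0

theorem ind_self (P : ℤ) : ind P P = 1 := if_pos rfl

theorem ind_ne {P j : ℤ} (h : j ≠ P) : ind P j = 0 := if_neg h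

theorem ct_of {v0 v1 v2 v3 : ℤ} (h : Gd v0 v1 v2 v3) (P j : ℤ) :
    Ct (ind P (j - 1)) (ind P j) (ind P (j + 1)) (ind P (j + 2))
      (at4 v0 v1 v2 v3 (2 * j - 2 * P + 1)) (at4 v0 v1 v2 v3 (2 * j + 1 - 2 * P + 1))
      (at4 v0 v1 v2 v3 (2 * j + 2 - 2 * P + 1)) (at4 v0 v1 v2 v3 (2 * j + 3 - 2 * P + 1)) := by
  obtain ⟨h1, h2, h3, h4, h5, h6, h7, h8, h9, h10, h11, h12, h13, h14, h15, h16⟩ := h
  by_cases c1 : P = j - 1
  · have q1 : ind P (j - 1) = 1 := by rw [c1]; exact ind_self _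
    have q2 : ind P j = 0 := ind_ne (by omega)
    have q3 : ind P (j + 1) = 0 := ind_ne (by omega)
    have q4 : ind P (j + 2) = 0 := ind_ne (by omega)
    have r1 : at4 v0 v1 v2 v3 (2 * j - 2 * P + 1) = v3 := by
      unfold at4; rw [if_neg (by omega), if_neg (by omega), if_neg (by omega), if_pos (by omega)]
    have r2 : at4 v0 v1 v2 v3 (2 * j + 1 - 2 * P + 1) = 0 := by
      unfold at4; rw [if_neg (by omega), if_neg (by omega), if_neg (by omega), if_neg (by omega)]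
    have r3 : at4 v0 v1 v2 v3 (2 * j + 2 - 2 * P + 1) = 0 := by
      unfold at4; rw [if_neg (by omega), if_neg (by omega), if_neg (by omega), if_neg (by omega)]
    have r4 : at4 v0 v1 v2 v3 (2 * j + 3 - 2 * P + 1) = 0 := by
      unfold at4; rw [if_neg (by omega), if_neg (by omega), if_neg (by omega), if_neg (by omega)]
    rw [q1, q2, q3, q4, r1, r2, r3, r4]
    constructor <;> omega
  by_cases c2 : P = j
  · have q1 : ind P (j - 1) = 0 := ind_ne (by omega)
    have q2 : ind P j = 1 := by rw [c2]; exact ind_self _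
    have q3 : ind P (j + 1) = 0 := ind_ne (by omega)
    have q4 : ind P (j + 2) = 0 := ind_ne (by omega)
    have r1 : at4 v0 v1 v2 v3 (2 * j - 2 * P + 1) = v1 := by
      unfold at4; rw [if_neg (by omega), if_pos (by omega)]
    have r2 : at4 v0 v1 v2 v3 (2 * j + 1 - 2 * P + 1) = v2 := by
      unfold at4; rw [if_neg (by omega), if_neg (by omega), if_pos (by omega)]
    have r3 : at4 v0 v1 v2 v3 (2 * j + 2 - 2 * P + 1) = v3 := by
      unfold at4; rw [if_neg (by omega), if_neg (by omega), if_neg (by omega), if_pos (by omega)]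
    have r4 : at4 v0 v1 v2 v3 (2 * j + 3 - 2 * P + 1) = 0 := by
      unfold at4; rw [if_neg (by omega), if_neg (by omega), if_neg (by omega), if_neg (by omega)]
    rw [q1, q2, q3, q4, r1, r2, r3, r4]
    constructor <;> omega
  by_cases c3 : P = j + 1
  · have q1 : ind P (j - 1) = 0 := ind_ne (by omega)
    have q2 : ind P j = 0 := ind_ne (by omega)
    have q3 : ind P (j + 1) = 1 := by rw [c3]; exact ind_self _
    have q4 : ind P (j + 2) = 0 := ind_ne (by omega)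
    have r1 : at4 v0 v1 v2 v3 (2 * j - 2 * P + 1) = 0 := by
      unfold at4; rw [if_neg (by omega), if_neg (by omega), if_neg (by omega), if_neg (by omega)]
    have r2 : at4 v0 v1 v2 v3 (2 * j + 1 - 2 * P + 1) = v0 := by
      unfold at4; rw [if_pos (by omega)]
    have r3 : at4 v0 v1 v2 v3 (2 * j + 2 - 2 * P + 1) = v1 := by
      unfold at4; rw [if_neg (by omega), if_pos (by omega)]
    have r4 : at4 v0 v1 v2 v3 (2 * j + 3 - 2 * P + 1) = v2 := by
      unfold at4; rw [if_neg (by omega), if_neg (by omega), if_pos (by omega)]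
    rw [q1, q2, q3, q4, r1, r2, r3, r4]
    constructor <;> omega
  by_cases c4 : P = j + 2
  · have q1 : ind P (j - 1) = 0 := ind_ne (by omega)
    have q2 : ind P j = 0 := ind_ne (by omega)
    have q3 : ind P (j + 1) = 0 := ind_ne (by omega)
    have q4 : ind P (j + 2) = 1 := by rw [c4]; exact ind_self _
    have r1 : at4 v0 v1 v2 v3 (2 * j - 2 * P + 1) = 0 := by
      unfold at4; rw [if_neg (by omega), if_neg (by omega), if_neg (by omega), if_neg (by omega)]
    have r2 : at4 v0 v1 v2 v3 (2 * j + 1 - 2 * P + 1) = 0 := by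
      unfold at4; rw [if_neg (by omega), if_neg (by omega), if_neg (by omega), if_neg (by omega)]
    have r3 : at4 v0 v1 v2 v3 (2 * j + 2 - 2 * P + 1) = 0 := by
      unfold at4; rw [if_neg (by omega), if_neg (by omega), if_neg (by omega), if_neg (by omega)]
    have r4 : at4 v0 v1 v2 v3 (2 * j + 3 - 2 * P + 1) = v0 := by
      unfold at4; rw [if_pos (by omega)]
    rw [q1, q2, q3, q4, r1, r2, r3, r4]
    constructor <;> omega
  · have q1 : ind P (j - 1) = 0 := ind_ne (by omega)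
    have q2 : ind P j = 0 := ind_ne (by omega)
    have q3 : ind P (j + 1) = 0 := ind_ne (by omega)
    have q4 : ind P (j + 2) = 0 := ind_ne (by omega)
    have r1 : at4 v0 v1 v2 v3 (2 * j - 2 * P + 1) = 0 := by
      unfold at4; rw [if_neg (by omega), if_neg (by omega), if_neg (by omega), if_neg (by omega)]
    have r2 : at4 v0 v1 v2 v3 (2 * j + 1 - 2 * P + 1) = 0 := by
      unfold at4; rw [if_neg (by omega), if_neg (by omega), if_neg (by omega), if_neg (by omega)]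
    have r3 : at4 v0 v1 v2 v3 (2 * j + 2 - 2 * P + 1) = 0 := by
      unfold at4; rw [if_neg (by omega), if_neg (by omega), if_neg (by omega), if_neg (by omega)]
    have r4 : at4 v0 v1 v2 v3 (2 * j + 3 - 2 * P + 1) = 0 := by
      unfold at4; rw [if_neg (by omega), if_neg (by omega), if_neg (by omega), if_neg (by omega)]
    rw [q1, q2, q3, q4, r1, r2, r3, r4]
    constructor <;> omega

/-- the reflection of a contribution -/
theorem Ct.mirror {km k0 k1 kp c0 c1 c2 c3 : ℤ} (h : Ct km k0 k1 kp c0 c1 c2 c3) :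
    Ct kp k1 k0 km c3 c2 c1 c0 := by
  obtain ⟨h1, h2, h3, h4, h5, h6, h7, h8, h9, h10, h11, h12, h13, h14, h15, h16, h17, h18, h19,
    h20, h21, h22, h23, h24, h25, h26, h27⟩ := h
  refine ⟨h4, h3, h2, h1, by omega, by omega, by omega, by omega, by omega, by omega, ?_,
    by omega, ?_, ?_, ?_, ?_, ?_, ?_, ?_, ?_, ?_, h25, h24, h23, h22, h27, h26⟩
  · intro h; have := h13 (by omega); omega
  · intro h; have := h11 (by omega); omega
  · intro h; have := h16 h; omega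
  · intro h h'; have := h17 h (by omega); omega
  · intro h; have := h14 h; omega
  · intro h h'; have := h15 h (by omega); omega
  · intro h h'; have := h19 h (by omega); omega
  · intro h h'; have := h18 h (by omega); omega
  · intro h; rcases h21 h with h' | h'
    · exact Or.inl h'
    · exact Or.inr ⟨h'.2, h'.1⟩
  · intro h; rcases h20 h with h' | h'
    · exact Or.inl h'
    · exact Or.inr ⟨h'.2, h'.1⟩

end Pool.Agent.PSX
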