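import Pool.Agent.PSX.Count
import Pool.Agent.PSX.Copies
import Mathlib.Analysis.SpecialFunctions.Pow.Real

set_option autoImplicit false

/-!
# Levels with many vertices
-/

namespace Pool.Agent.PSX

open Finset Pool.Agent.PSW Pool.Agent.PLevel

/-- the size of the sets -/
def KK (D : ℕ) : ℕ := ∑ j ∈ range (3 * 2 ^ D + 1), (-lo D j).toNat

theorem dif_bd (D t : ℕ) (ht : t ≤ 62 ^ D) (j : ℕ) :
    lo D j ≤ dif (aa D) j t ∧ dif (aa D) j t ≤ hi D j := by
  rw [dif_aa D j t ht]
  exact bounds D t ht j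

theorem sum_c (D t : ℕ) (ht : t ≤ 62 ^ D) :
    ∑ j ∈ range (3 * 2 ^ D + 1), (dif (aa D) j t - lo D j).toNat = KK D := by
  have h0 : loc (aa D) (3 * 2 ^ D) t = 0 := by
    unfold loc
    rw [card_eq_zero, filter_eq_empty_iff]
    intro u hu
    rw [mem_range] at hu
    exact (aa_lt D u (by omega)).ne
  have h1 : ((∑ j ∈ range (3 * 2 ^ D + 1), (dif (aa D) j t - lo D j).toNat : ℕ) : ℤ) =
      (KK D : ℤ) := by
    unfold KK
    rw [Nat.cast_sum, Nat.cast_sum]
    have e1 : ∑ j ∈ range (3 * 2 ^ D + 1), ((dif (aa D) j t - lo D j).toNat : ℤ) =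
        ∑ j ∈ range (3 * 2 ^ D + 1), (dif (aa D) j t - lo D j) := by
      apply sum_congr rfl
      intro j _
      exact Int.toNat_of_nonneg (sub_nonneg.2 (dif_bd D t ht j).1)
    have e2 : ∑ j ∈ range (3 * 2 ^ D + 1), ((-lo D j).toNat : ℤ) =
        ∑ j ∈ range (3 * 2 ^ D + 1), (-lo D j) := by
      apply sum_congr rfl
      intro j _
      have := lo_hi D j
      exact Int.toNat_of_nonneg (by omega)
    rw [e1, e2, sum_sub_distrib, sum_dif, h0, sum_neg_distrib]
    simp
  exact_mod_cast h1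

theorem ne_c (D t : ℕ) (ht : t < 62 ^ D) : ∃ j < 3 * 2 ^ D + 1,
    (dif (aa D) j t - lo D j).toNat ≠ (dif (aa D) j (t + 1) - lo D j).toNat := by
  refine ⟨aa D t + 1, ?_, ?_⟩
  · have := aa_lt D t ht
    omega
  · have h2 : dif (aa D) (aa D t + 1) (t + 1) = dif (aa D) (aa D t + 1) t + 1 := by
      unfold dif
      rw [if_neg (by omega), if_neg (by omega), Nat.add_sub_cancel, loc_succ, loc_succ, if_pos rfl,
        if_neg (by omega)]
      push_cast
      ring
    have h3 := (dif_bd D t ht.le (aa D t + 1)).1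
    have h4 := (dif_bd D (t + 1) ht (aa D t + 1)).1
    omega

theorem KK_pos (D : ℕ) : 1 ≤ KK D := by
  by_contra hno
  have h0 : KK D = 0 := by omega
  have hpos : 0 < 62 ^ D := by positivity
  obtain ⟨j, hj, hne⟩ := ne_c D 0 hpos
  have a := sum_c D 0 hpos.le
  have b := sum_c D 1 hpos
  rw [h0, sum_eq_zero_iff] at a b
  exact hne ((a j (mem_range.2 hj)).trans (b j (mem_range.2 hj)).symm)

theorem KK_le (D : ℕ) : KK D ≤ NN D := by
  unfold KK NN gg
  apply sum_le_sum
  intro j _
  have := lo_hi D j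
  omega

theorem main {D R p q : ℕ} (hR : 1 ≤ R) :
    ∃ w, Sweep (R * NN D + (p + q)) 1 w Fin.revPerm ∧ R * 62 ^ D ≤ w.count (KK D + p - 1) := by
  refine copies (r := 3 * 2 ^ D + 1) (T := 62 ^ D) (k := KK D) (p := p) (q := q)
    (fun j => gg D j) (fun t j => (dif (aa D) j t - lo D j).toNat) (Nat.succ_pos _) hR (KK_pos D)
    ?_ (fun t ht => sum_c D t ht) (fun t ht => ne_c D t ht) ?_
  · intro t ht j _
    have := dif_bd D t ht j
    simp only [gg]
    omega
  · intro s t hst ht i l hil _ h1 h2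
    apply uni_aa D s t hst ht i l hil
    · have := (dif_bd D s (by omega) i).1
      omega
    · have := (dif_bd D t ht l).1
      omega

/-- many copies of one crossing -/
theorem small {R p q : ℕ} (hR : 1 ≤ R) :
    ∃ w, Sweep (R * 2 + (p + q)) 1 w Fin.revPerm ∧ R ≤ w.count p := by
  obtain ⟨w, h1, h2⟩ := copies (r := 2) (T := 1) (k := 1) (p := p) (q := q) (R := R)
    (fun _ => 1) (fun t j => if j = t then 1 else 0) (by norm_num) hR le_rfl
    (by intro t _ j _; split_ifs <;> omega)
    (by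
      intro t ht
      have : t = 0 ∨ t = 1 := by omega
      rcases this with h | h <;> subst h <;> decide)
    (by
      intro t ht
      have : t = 0 := by omega
      subst this
      exact ⟨0, by norm_num, by decide⟩)
    (by
      intro s t hst ht i l hil hl h1 h2
      have hs : s = 0 := by omega
      have ht' : t = 1 := by omega
      subst hs ht'
      split_ifs at h1 h2 <;> omega)
  refine ⟨w, ?_, ?_⟩
  · have e : ∑ _j ∈ range 2, 1 = 2 := rfl
    rw [e] at h1
    exact h1
  · have e : 1 + p - 1 = p := by omega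
    rw [e, mul_one] at h2
    exact h2

/-- the exponent `log 2 / log 31 = 0.2018...` -/
noncomputable def ga : ℝ := Real.log 2 / Real.log 31

theorem ga_pos : 0 < ga := div_pos (Real.log_pos (by norm_num)) (Real.log_pos (by norm_num))

theorem rpow_ga (N : ℕ) : ((31 : ℝ) ^ N) ^ ga = 2 ^ N := by
  have h1 : (31 : ℝ) ^ ga = 2 := by
    rw [Real.rpow_def_of_pos (by norm_num)]
    unfold ga
    rw [mul_div_cancel₀ _ (Real.log_pos (by norm_num)).ne']
    exact Real.exp_log (by norm_num)
  rw [← Real.rpow_natCast, ← Real.rpow_mul (by norm_num), mul_comm, Real.rpow_mul (by norm_num), h1,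
    Real.rpow_natCast]

/-- Many letters `k` when the level is in the lower half. -/
theorem low_half {n k : ℕ} (hn : 2 ≤ n) (hk : 2 * k + 1 ≤ n) :
    ∃ w, Sweep n 1 w Fin.revPerm ∧ (n : ℝ) * ((k : ℝ) + 1) ^ ga / 40 ≤ w.count k := by
  by_cases hsmall : k + 1 ≤ 3
  · have hR : 1 ≤ (n - k) / 2 := by omega
    obtain ⟨w, hw, hc⟩ := small (R := (n - k) / 2) (p := k) (q := (n - k) % 2) hR
    have e : (n - k) / 2 * 2 + (k + (n - k) % 2) = n := by omega
    rw [e] at hw
    refine ⟨w, hw, ?_⟩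
    have h5 : (n : ℝ) ≤ 8 * w.count k := by
      have : n ≤ 8 * w.count k := by omega
      exact_mod_cast this
    have h6 : ((k : ℝ) + 1) ^ ga ≤ 2 := by
      have h7 : (k : ℝ) + 1 ≤ 31 ^ 1 := by
        have : (k : ℝ) + 1 ≤ 3 := by exact_mod_cast hsmall
        linarith
      have h8 := Real.rpow_le_rpow (by positivity) h7 ga_pos.le
      rw [rpow_ga, pow_one] at h8
      exact h8
    have h7 : (n : ℝ) * ((k : ℝ) + 1) ^ ga ≤ n * 2 :=
      mul_le_mul_of_nonneg_left h6 (Nat.cast_nonneg n)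
    linarith
  · push Not at hsmall
    have hex : ∃ D, 100 * 31 ^ D ≤ 29 * (k + 1) ∧ 29 * (k + 1) < 100 * 31 ^ (D + 1) := by
      by_contra hno
      push Not at hno
      have h1 : ∀ D, 100 * 31 ^ D ≤ 29 * (k + 1) := by
        intro D
        induction D with
        | zero => omega
        | succ D ih => exact hno D ih
      have h2 := h1 (k + 1)
      have h3 : k + 1 < 31 ^ (k + 1) := Nat.lt_pow_self (by norm_num)
      omega
    obtain ⟨D, hD1, hD2⟩ := hex
    have hN := NN_le D
    have hK := KK_le D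
    have hK1 := KK_pos D
    have hNk : NN D ≤ k + 1 := by omega
    have hN0 : 0 < NN D := by omega
    set N := NN D with hNdef
    set K := KK D with hKdef
    set p := k + 1 - K with hp
    set R := (n - p) / N with hRdef
    have hR1 : 1 ≤ R := by
      rw [hRdef]
      exact (Nat.one_le_div_iff hN0).2 (by omega)
    obtain ⟨w, hw, hc⟩ := main (D := D) (R := R) (p := p) (q := (n - p) % N) hR1
    have hr1 : R * N + (n - p) % N = n - p := by
      rw [hRdef, mul_comm]
      exact Nat.div_add_mod (n - p) N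
    have e : R * NN D + (p + (n - p) % N) = n := by
      rw [← hNdef]
      omega
    rw [e] at hw
    refine ⟨w, hw, ?_⟩
    have e2 : KK D + p - 1 = k := by
      rw [← hKdef]
      omega
    rw [e2] at hc
    have hmod : (n - p) % N < N := Nat.mod_lt _ hN0
    have hRN : N ≤ R * N := Nat.le_mul_of_pos_left _ hR1
    have hn4 : n ≤ 4 * (R * N) := by omega
    have hfin : (29 : ℝ) / 400 * (n * 2 ^ D) ≤ w.count k := by
      have h1 : (n : ℝ) ≤ 4 * (R * N) := by exact_mod_cast hn4
      have h2 : (29 : ℝ) * N ≤ 100 * 31 ^ D := by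
        have : 29 * N ≤ 100 * 31 ^ D := by omega
        exact_mod_cast this
      have h3 : (R : ℝ) * 62 ^ D ≤ w.count k := by exact_mod_cast hc
      have h4 : (62 : ℝ) ^ D = 31 ^ D * 2 ^ D := by
        rw [← mul_pow]
        norm_num
      rw [h4] at h3
      have h5 : (0 : ℝ) ≤ 2 ^ D := by positivity
      have h6 : (0 : ℝ) ≤ R := Nat.cast_nonneg R
      have h7 : (R : ℝ) * (29 * N) ≤ R * (100 * 31 ^ D) := mul_le_mul_of_nonneg_left h2 h6
      have h8 : 29 * (n : ℝ) ≤ 400 * (R * 31 ^ D) := by linarith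
      have h9 := mul_le_mul_of_nonneg_right h8 h5
      linarith
    have hpow : ((k : ℝ) + 1) ^ ga ≤ 29 / 10 * 2 ^ D := by
      have h1 : ((k : ℝ) + 1) ^ 2 ≤ 31 ^ (2 * D + 3) := by
        have h2 : 29 * ((k : ℝ) + 1) ≤ 100 * 31 ^ (D + 1) := by exact_mod_cast hD2.le
        have h3 : (29 * ((k : ℝ) + 1)) ^ 2 ≤ (100 * 31 ^ (D + 1)) ^ 2 :=
          pow_le_pow_left₀ (by positivity) h2 2
        have h4 : ((31 : ℝ) ^ (D + 1)) ^ 2 * 31 = 31 ^ (2 * D + 3) := by
          rw [← pow_mul, ← pow_succ]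
          congr 1
          ring
        have h5 : (0 : ℝ) ≤ (31 ^ (D + 1)) ^ 2 := by positivity
        rw [mul_pow, mul_pow] at h3
        rw [← h4]
        nlinarith
      have h6 := Real.rpow_le_rpow (by positivity) h1 ga_pos.le
      rw [rpow_ga, ← Real.rpow_natCast, ← Real.rpow_mul (by positivity), mul_comm,
        Real.rpow_mul (by positivity), Real.rpow_natCast] at h6
      have h7 : (2 : ℝ) ^ (2 * D + 3) ≤ (29 / 10 * 2 ^ D) ^ 2 := by
        have : (2 : ℝ) ^ (2 * D + 3) = 8 * (2 ^ D) ^ 2 := by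
          rw [← pow_mul, pow_add, mul_comm 2 D]
          ring
        rw [this, mul_pow]
        have : (0 : ℝ) ≤ (2 ^ D) ^ 2 := by positivity
        nlinarith
      exact (pow_le_pow_iff_left₀ (by positivity) (by positivity) two_ne_zero).1 (h6.trans h7)
    have h1 : (n : ℝ) * ((k : ℝ) + 1) ^ ga ≤ n * (29 / 10 * 2 ^ D) :=
      mul_le_mul_of_nonneg_left hpow (Nat.cast_nonneg n)
    linarith

end Pool.Agent.PSX
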