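import Pool.Agent.PSX.Word
import Mathlib.Tactic.IntervalCases

set_option autoImplicit false

/-!
# The finite checks of the windows without a middle part
-/

namespace Pool.Agent.PSX

/-- weakly down from a positive value -/
def dn (a b : ℤ) : Bool := decide (b ≤ a) && decide (0 < a)

/-- weakly up to a positive value -/
def uw (a b : ℤ) : Bool := decide (a ≤ b) && decide (0 < b)

/-- the condition `S` for a profile on six sites -/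
def c6 (a0 a1 a2 a3 a4 a5 : ℤ) : Bool :=
  !(dn a0 a1 && (uw a1 a2 || uw a2 a3 || uw a3 a4 || uw a4 a5)) &&
  !(dn a1 a2 && (uw a2 a3 || uw a3 a4 || uw a4 a5)) &&
  !(dn a2 a3 && (uw a3 a4 || uw a4 a5)) && !(dn a3 a4 && uw a4 a5)

theorem dn_of {a b : ℤ} (h : 0 < a) (h' : b ≤ a) : dn a b = true := by
  simp [dn, h, h']

theorem uw_of {a b : ℤ} (h : a ≤ b) (h' : 0 < b) : uw a b = true := by
  simp [uw, h, h']

theorem S_of_c6 {f : ℤ → ℤ} (hz : ∀ m, m < 0 ∨ 5 < m → f m = 0)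
    (h : c6 (f 0) (f 1) (f 2) (f 3) (f 4) (f 5) = true) : S f := by
  intro i l hil h1 h2 h3 h4
  have i0 : 0 ≤ i := by
    by_contra hc
    have := hz i (Or.inl (by omega))
    omega
  have l5 : l + 1 ≤ 5 := by
    by_contra hc
    have := hz (l + 1) (Or.inr (by omega))
    omega
  have d := dn_of h1 h2
  have u := uw_of h3 h4
  have il : i = 0 ∧ l = 1 ∨ i = 0 ∧ l = 2 ∨ i = 0 ∧ l = 3 ∨ i = 0 ∧ l = 4 ∨ i = 1 ∧ l = 2 ∨
      i = 1 ∧ l = 3 ∨ i = 1 ∧ l = 4 ∨ i = 2 ∧ l = 3 ∨ i = 2 ∧ l = 4 ∨ i = 3 ∧ l = 4 := by omega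
  have q1 : (0 : ℤ) + 1 = 1 := rfl
  have q2 : (1 : ℤ) + 1 = 2 := rfl
  have q3 : (2 : ℤ) + 1 = 3 := rfl
  have q4 : (3 : ℤ) + 1 = 4 := rfl
  have q5 : (4 : ℤ) + 1 = 5 := rfl
  rcases il with ⟨e1, e2⟩ | ⟨e1, e2⟩ | ⟨e1, e2⟩ | ⟨e1, e2⟩ | ⟨e1, e2⟩ | ⟨e1, e2⟩ | ⟨e1, e2⟩ |
    ⟨e1, e2⟩ | ⟨e1, e2⟩ | ⟨e1, e2⟩ <;> subst e1 e2 <;>
    simp only [q1, q2, q3, q4, q5] at d u <;> simp [c6, d, u] at h

theorem S_shift {f : ℤ → ℤ} (c : ℤ) (h : S f) : S (fun m => f (m + c)) := by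
  intro i l hil h1 h2 h3 h4
  have e1 : i + 1 + c = i + c + 1 := by ring
  have e2 : l + 1 + c = l + c + 1 := by ring
  simp only [e1, e2] at h1 h2 h3 h4
  exact h (i + c) (l + c) (by omega) h1 h2 h3 h4

theorem at4_0 (v0 v1 v2 v3 : ℤ) : at4 v0 v1 v2 v3 0 = v0 := rfl
theorem at4_1 (v0 v1 v2 v3 : ℤ) : at4 v0 v1 v2 v3 1 = v1 := rfl
theorem at4_2 (v0 v1 v2 v3 : ℤ) : at4 v0 v1 v2 v3 2 = v2 := rfl
theorem at4_3 (v0 v1 v2 v3 : ℤ) : at4 v0 v1 v2 v3 3 = v3 := rfl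

theorem at4_out {v0 v1 v2 v3 i : ℤ} (h : i < 0 ∨ 3 < i) : at4 v0 v1 v2 v3 i = 0 := by
  unfold at4
  rw [if_neg (by omega), if_neg (by omega), if_neg (by omega), if_neg (by omega)]

/-- difference of two vectors -/
def c4d (p q : ℤ × ℤ × ℤ × ℤ) : Bool :=
  c6 (q.1 - p.1) (q.2.1 - p.2.1) (q.2.2.1 - p.2.2.1) (q.2.2.2 - p.2.2.2) 0 0

/-- sum of two vectors -/
def c4s (p q : ℤ × ℤ × ℤ × ℤ) : Bool :=
  c6 (p.1 + q.1) (p.2.1 + q.2.1) (p.2.2.1 + q.2.2.1) (p.2.2.2 + q.2.2.2) 0 0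

/-- two vectors, the second one is shifted by two sites -/
def c6s (p q : ℤ × ℤ × ℤ × ℤ) : Bool :=
  c6 p.1 p.2.1 (p.2.2.1 + q.1) (p.2.2.2 + q.2.1) q.2.2.1 q.2.2.2

/-- windows inside a letter -/
theorem chk_in : ∀ p ∈ tb, ∀ q ∈ tb, p.1 ≤ q.1 → p.2.1 ≤ q.2.1 → p.2.2.1 ≤ q.2.2.1 →
    p.2.2.2 ≤ q.2.2.2 → c4d p q = true ∧ c4d (rv p) (rv q) = true := by
  decide +kernel

/-- windows in two letters at the same site -/
theorem chk_0 : ∀ p ∈ tb, ∀ q ∈ tb, c4s (cp p) q = true ∧ c4s (cp p) (rv q) = true ∧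
    c4s (cp (rv p)) q = true ∧ c4s (cp (rv p)) (rv q) = true := by
  decide +kernel

/-- windows in two letters at adjacent sites -/
theorem chk_1 : ∀ p ∈ tb, ∀ q ∈ tb, c6s (cp p) q = true ∧ c6s (rv q) (cp (rv p)) = true := by
  decide +kernel

theorem S_same {p q : ℤ × ℤ × ℤ × ℤ} (h : c4s p q = true) :
    S (fun i => at4t p i + at4t q i) := by
  have hz : ∀ m, m < 0 ∨ 5 < m → at4t p m + at4t q m = 0 := by
    intro m hm
    unfold at4t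
    rw [at4_out (by omega), at4_out (by omega)]
    rfl
  apply S_of_c6 hz
  unfold at4t
  rw [at4_0, at4_0, at4_1, at4_1, at4_2, at4_2, at4_3, at4_3, at4_out (by omega),
    at4_out (by omega), at4_out (by omega), at4_out (by omega)]
  exact h

theorem S_two {p q : ℤ × ℤ × ℤ × ℤ} (h : c6s p q = true) :
    S (fun i => at4t p i + at4t q (i - 2)) := by
  have hz : ∀ m, m < 0 ∨ 5 < m → at4t p m + at4t q (m - 2) = 0 := by
    intro m hm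
    unfold at4t
    rw [at4_out (by omega), at4_out (by omega)]
    rfl
  apply S_of_c6 hz
  have e0 : (0 : ℤ) - 2 = -2 := rfl
  have e1 : (1 : ℤ) - 2 = -1 := rfl
  have e2 : (2 : ℤ) - 2 = 0 := rfl
  have e3 : (3 : ℤ) - 2 = 1 := rfl
  have e4 : (4 : ℤ) - 2 = 2 := rfl
  have e5 : (5 : ℤ) - 2 = 3 := rfl
  have o1 : ∀ v : ℤ × ℤ × ℤ × ℤ, at4t v (-2) = 0 := fun v => at4_out (by omega)
  have o2 : ∀ v : ℤ × ℤ × ℤ × ℤ, at4t v (-1) = 0 := fun v => at4_out (by omega)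
  have o3 : ∀ v : ℤ × ℤ × ℤ × ℤ, at4t v 4 = 0 := fun v => at4_out (by omega)
  have o4 : ∀ v : ℤ × ℤ × ℤ × ℤ, at4t v 5 = 0 := fun v => at4_out (by omega)
  rw [e0, e1, e2, e3, e4, e5, o1, o2, o3, o4, add_zero, add_zero, zero_add, zero_add]
  exact h

end Pool.Agent.PSX
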