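import Pool.Agent.PSX.Close

set_option autoImplicit false

/-!
# The word and its finite checks
-/

namespace Pool.Agent.PSX

/-- the labels of the word -/
def wl : List ℤ :=
  [1, 1, 1, 2, 2, 1, 1, 1, 0, 0, 0, 0, 1, 1, 1, 2, 2, 1, 1, 2, 2, 2, 3, 3, 3, 3, 2, 2, 2, 1,
   1, 2, 2, 1, 1, 1, 0, 0, 0, 0, 1, 1, 1, 2, 2, 1, 1, 2, 2, 2, 3, 3, 3, 3, 2, 2, 2, 1, 1, 2,
   2, 2]

/-- the prefix vectors of the word -/
def tb : List (ℤ × ℤ × ℤ × ℤ) :=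
  [(0, 0, 0, 0), (0, 1, 0, 0), (0, 2, 0, 0), (0, 3, 0, 0), (0, 3, 1, 0), (0, 3, 2, 0),
   (0, 4, 2, 0), (0, 5, 2, 0), (0, 6, 2, 0), (1, 6, 2, 0), (2, 6, 2, 0), (3, 6, 2, 0),
   (4, 6, 2, 0), (4, 7, 2, 0), (4, 8, 2, 0), (4, 9, 2, 0), (4, 9, 3, 0), (4, 9, 4, 0),
   (4, 10, 4, 0), (4, 11, 4, 0), (4, 11, 5, 0), (4, 11, 6, 0), (4, 11, 7, 0), (4, 11, 7, 1),
   (4, 11, 7, 2), (4, 11, 7, 3), (4, 11, 7, 4), (4, 11, 8, 4), (4, 11, 9, 4), (4, 11, 10, 4),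
   (4, 12, 10, 4), (4, 13, 10, 4), (4, 13, 11, 4), (4, 13, 12, 4), (4, 14, 12, 4),
   (4, 15, 12, 4), (4, 16, 12, 4), (5, 16, 12, 4), (6, 16, 12, 4), (7, 16, 12, 4),
   (8, 16, 12, 4), (8, 17, 12, 4), (8, 18, 12, 4), (8, 19, 12, 4), (8, 19, 13, 4),
   (8, 19, 14, 4), (8, 20, 14, 4), (8, 21, 14, 4), (8, 21, 15, 4), (8, 21, 16, 4),
   (8, 21, 17, 4), (8, 21, 17, 5), (8, 21, 17, 6), (8, 21, 17, 7), (8, 21, 17, 8),
   (8, 21, 18, 8), (8, 21, 19, 8), (8, 21, 20, 8), (8, 22, 20, 8), (8, 23, 20, 8),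
   (8, 23, 21, 8), (8, 23, 22, 8), (8, 23, 23, 8)]

/-- the label at position `r` -/
def w (r : ℕ) : ℤ := wl.getD r 0

/-- the prefix vector of length `r` -/
def pt (r : ℕ) : ℤ × ℤ × ℤ × ℤ := tb.getD r (0, 0, 0, 0)

/-- reversal of the sites -/
def rv (p : ℤ × ℤ × ℤ × ℤ) : ℤ × ℤ × ℤ × ℤ := (p.2.2.2, p.2.2.1, p.2.1, p.1)

/-- complement -/
def cp (p : ℤ × ℤ × ℤ × ℤ) : ℤ × ℤ × ℤ × ℤ := (8 - p.1, 23 - p.2.1, 23 - p.2.2.1, 8 - p.2.2.2)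

/-- the label at position `r` of the word or of the reflected word -/
def lab (neg : Bool) (r : ℕ) : ℤ := if neg then 3 - w r else w r

/-- the prefix vector of length `r` of the word or of the reflected word -/
def pvt (neg : Bool) (r : ℕ) : ℤ × ℤ × ℤ × ℤ := if neg then rv (pt r) else pt r

/-- the value of a vector -/
def at4t (p : ℤ × ℤ × ℤ × ℤ) (i : ℤ) : ℤ := at4 p.1 p.2.1 p.2.2.1 p.2.2.2 i

theorem step_tab : ∀ r < 62, 0 ≤ w r ∧ w r ≤ 3 ∧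
    (pt (r + 1)).1 = (pt r).1 + (if w r = 0 then 1 else 0) ∧
    (pt (r + 1)).2.1 = (pt r).2.1 + (if w r = 1 then 1 else 0) ∧
    (pt (r + 1)).2.2.1 = (pt r).2.2.1 + (if w r = 2 then 1 else 0) ∧
    (pt (r + 1)).2.2.2 = (pt r).2.2.2 + (if w r = 3 then 1 else 0) := by
  decide +kernel

theorem step_w : ∀ r < 61, w (r + 1) - w r ≤ 1 ∧ w r - w (r + 1) ≤ 1 := by
  decide +kernel

theorem run_w : ∀ r < 60, w (r + 1) = w r ∨ w (r + 1) = w (r + 2) := by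
  decide +kernel

theorem w_zero : w 0 = 1 := rfl

theorem w_one : w 1 = 1 := rfl

theorem w_60 : w 60 = 2 := rfl

theorem w_61 : w 61 = 2 := rfl

theorem pt_zero : pt 0 = (0, 0, 0, 0) := rfl

theorem pt_62 : pt 62 = (8, 23, 23, 8) := rfl

theorem pt_mem {r : ℕ} (h : r ≤ 62) : pt r ∈ tb := by
  unfold pt
  have hl : r < tb.length := lt_of_le_of_lt h (by decide)
  rw [List.getD_eq_getElem?_getD, List.getElem?_eq_getElem hl, Option.getD_some]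
  exact List.getElem_mem hl

instance : DecidablePred (fun p : ℤ × ℤ × ℤ × ℤ => Gd p.1 p.2.1 p.2.2.1 p.2.2.2) :=
  fun _ => inferInstance

theorem gd_tab : ∀ p ∈ tb, Gd p.1 p.2.1 p.2.2.1 p.2.2.2 ∧
    Gd (cp p).1 (cp p).2.1 (cp p).2.2.1 (cp p).2.2.2 := by
  decide +kernel

theorem Gd.rev {v0 v1 v2 v3 : ℤ} (h : Gd v0 v1 v2 v3) : Gd v3 v2 v1 v0 := by
  obtain ⟨h1, h2, h3, h4, h5, h6, h7, h8, h9, h10, h11, h12, h13, h14, h15, h16⟩ := h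
  exact ⟨h2, h1, h4, h3, h6, h5, h9, h10, h7, h8, h12, h11, h14, h13, h16, h15⟩

theorem gd_pvt (neg : Bool) {r : ℕ} (h : r ≤ 62) :
    Gd (pvt neg r).1 (pvt neg r).2.1 (pvt neg r).2.2.1 (pvt neg r).2.2.2 := by
  have := (gd_tab _ (pt_mem h)).1
  cases neg
  · exact this
  · exact this.rev

theorem gd_cp (neg : Bool) {r : ℕ} (h : r ≤ 62) :
    Gd (cp (pvt neg r)).1 (cp (pvt neg r)).2.1 (cp (pvt neg r)).2.2.1
      (cp (pvt neg r)).2.2.2 := by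
  have := (gd_tab _ (pt_mem h)).2
  cases neg
  · exact this
  · exact this.rev

theorem pvt_succ (neg : Bool) {r : ℕ} (h : r < 62) (i : ℤ) :
    at4t (pvt neg (r + 1)) i = at4t (pvt neg r) i + ind (lab neg r) i := by
  obtain ⟨h1, h2, h3, h4, h5, h6⟩ := step_tab r h
  have hw : w r = 0 ∨ w r = 1 ∨ w r = 2 ∨ w r = 3 := by omega
  cases neg
  · simp only [at4t, pvt, lab, Bool.false_eq_true, if_false]
    rw [h3, h4, h5, h6]
    unfold at4 ind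
    rcases hw with hw | hw | hw | hw <;> rw [hw] <;> simp only [] <;> split_ifs <;> omega
  · simp only [at4t, pvt, lab, if_true, rv]
    rw [h3, h4, h5, h6]
    unfold at4 ind
    rcases hw with hw | hw | hw | hw <;> rw [hw] <;> simp only [] <;> split_ifs <;> omega

end Pool.Agent.PSX
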